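import Pool.Agent.Helper84.YG.Walk

/-!
Simple connectedness (for coverings in which triangles lift) of the graph of the vectors `v` with
`B(v,ρ) = 1`, `Q v = 1`.
-/

set_option autoImplicit false
set_option linter.unusedSectionVars false
set_option linter.style.longLine false
set_option linter.unusedSimpArgs false
set_option linter.unusedVariables false

namespace Pool.Agent.Helper84.YG

open Module Pool.Agent.Helper35.YG

variable {K V : Type*} [Field K] [Fintype K] [CharP K 2] [AddCommGroup V] [Module K V]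
  [FiniteDimensional K V] {Q : QuadraticForm K V} {ρ : V}
  (hnd : ∀ x, (∀ y, QuadraticMap.polar Q x y = 0) → x = 0)
  {Ω : Type*} {E : Ω → Ω → Prop} {π : Ω → V} (hc : Cover (XX Q ρ) (AA Q ρ) E π)

include hnd hc

/-- case (1) -/
lemma ns1 (hdim : 8 ≤ finrank K V) {ω₀ ω₁ ω₂ ω₃ : Ω} (h01 : E ω₀ ω₁) (h12 : E ω₁ ω₂)
    (h23 : E ω₂ ω₃)
    (hne : ¬ (1 + QuadraticMap.polar Q (π ω₀) (π ω₂) * QuadraticMap.polar Q (π ω₁) (π ω₃) + QuadraticMap.polar Q (π ω₀) (π ω₃) = 0 ∧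
      QuadraticMap.polar Q (π ω₀) (π ω₂) = 0 ∧ QuadraticMap.polar Q (π ω₁) (π ω₃) = 0))
    (hr : QuadraticMap.polar Q (π ω₁) (π ω₃) • (π ω₀ + QuadraticMap.polar Q (π ω₀) (π ω₂) • π ω₁ + π ω₂) +
      QuadraticMap.polar Q (π ω₀) (π ω₂) • (π ω₃ + π ω₁ + QuadraticMap.polar Q (π ω₁) (π ω₃) • π ω₂) +
      (1 + QuadraticMap.polar Q (π ω₀) (π ω₂) * QuadraticMap.polar Q (π ω₁) (π ω₃) + QuadraticMap.polar Q (π ω₀) (π ω₃)) • (ρ + π ω₁ + π ω₂) = 0 →
      1 + QuadraticMap.polar Q (π ω₀) (π ω₂) * QuadraticMap.polar Q (π ω₁) (π ω₃) + QuadraticMap.polar Q (π ω₀) (π ω₃) = 0) : Near E ω₀ ω₃ := by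
  have W := walk hc h01 h12 h23
  obtain ⟨u, u1, u2, up, us, ur, uQ, -⟩ := solve5 hnd hdim W.a12.1 W.p1 W.p2 W.s1 W.s2 W.r1 W.r2
    (by rw [W.ps, W.pr, W.sr]; exact hne) (QuadraticMap.polar Q (π ω₀) (π ω₂)) (QuadraticMap.polar Q (π ω₁) (π ω₃)) 1 (by
      rw [W.ps, W.pr, W.sr]
      intro h
      rw [hr h]
      (ring_nf; try simp only [two0, three1, four0, five1, six0, mul_zero, zero_mul, mul_one, one_mul, add_zero, zero_add, neg2]; try ring_nf)) 0 0
  obtain ⟨m, a0, a1, a2, a3⟩ := W.direct u1 u2 up us ur uQ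
  exact near_direct hc h01 h12 h23 m a0 a1 a2 a3

/-- case (2), first half -/
lemma ns2a (hdim : 8 ≤ finrank K V) {ω₀ ω₁ ω₂ ω₃ : Ω} (h01 : E ω₀ ω₁) (h12 : E ω₁ ω₂)
    (h23 : E ω₂ ω₃) (ha : QuadraticMap.polar Q (π ω₀) (π ω₂) ≠ 0)
    (hac : QuadraticMap.polar Q (π ω₀) (π ω₂) + 1 + QuadraticMap.polar Q (π ω₀) (π ω₃) ≠ 0)
    (hr : QuadraticMap.polar Q (π ω₁) (π ω₃) • (π ω₀ + QuadraticMap.polar Q (π ω₀) (π ω₂) • π ω₁ + π ω₂) +
      QuadraticMap.polar Q (π ω₀) (π ω₂) • (π ω₃ + π ω₁ + QuadraticMap.polar Q (π ω₁) (π ω₃) • π ω₂) +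
      (1 + QuadraticMap.polar Q (π ω₀) (π ω₂) * QuadraticMap.polar Q (π ω₁) (π ω₃) + QuadraticMap.polar Q (π ω₀) (π ω₃)) • (ρ + π ω₁ + π ω₂) = 0) :
    Near E ω₀ ω₃ := by
  have W := walk hc h01 h12 h23
  obtain ⟨δ, hδ⟩ : ∃ δ, δ = (QuadraticMap.polar Q (π ω₀) (π ω₂) + 1 + QuadraticMap.polar Q (π ω₀) (π ω₃)) / QuadraticMap.polar Q (π ω₀) (π ω₂) :=
    ⟨_, rfl⟩
  have haδ : QuadraticMap.polar Q (π ω₀) (π ω₂) * δ = QuadraticMap.polar Q (π ω₀) (π ω₂) + 1 + QuadraticMap.polar Q (π ω₀) (π ω₃) := by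
    rw [hδ]; field_simp
  have hδ0 : δ ≠ 0 := by
    rintro rfl
    rw [mul_zero] at haδ
    exact hac haδ.symm
  obtain ⟨u, u1, u2, up, us, ur, uQ, hu⟩ := solve5 hnd hdim W.a12.1 W.p1 W.p2 W.s1 W.s2 W.r1 W.r2
    (by rw [W.ps, W.pr, W.sr]; exact fun h => ha h.2.1) (QuadraticMap.polar Q (π ω₀) (π ω₂)) (1 + δ) 1 (by
      rw [W.ps, W.pr, W.sr]
      intro _
      have h1 : QuadraticMap.polar Q (π ω₁) (π ω₃) * QuadraticMap.polar Q (π ω₀) (π ω₂) + QuadraticMap.polar Q (π ω₀) (π ω₂) * (1 + δ) +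
          (1 + QuadraticMap.polar Q (π ω₀) (π ω₂) * QuadraticMap.polar Q (π ω₁) (π ω₃) + QuadraticMap.polar Q (π ω₀) (π ω₃)) * 1 =
          QuadraticMap.polar Q (π ω₁) (π ω₃) * QuadraticMap.polar Q (π ω₀) (π ω₂) + QuadraticMap.polar Q (π ω₀) (π ω₂) + QuadraticMap.polar Q (π ω₀) (π ω₂) * δ +
          (1 + QuadraticMap.polar Q (π ω₀) (π ω₂) * QuadraticMap.polar Q (π ω₁) (π ω₃) + QuadraticMap.polar Q (π ω₀) (π ω₃)) * 1 := by ring
      rw [h1, haδ]
      (ring_nf; try simp only [two0, three1, four0, five1, six0, mul_zero, zero_mul, mul_one, one_mul, add_zero, zero_add, neg2]; try ring_nf)) 0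
    ((ρ + π ω₁ + π ω₂) + (QuadraticMap.polar Q (π ω₀) (π ω₂))⁻¹ • (π ω₀ + QuadraticMap.polar Q (π ω₀) (π ω₂) • π ω₁ + π ω₂))
  obtain ⟨m, a0, a1, a2⟩ := W.new u1 u2 up ur uQ
  obtain ⟨-, -, hb⟩ := W.move u1 u2 up us ur uQ
  obtain ⟨ωx, h0x, hx2, hπ⟩ := exists_move hc h01 h12 m a0 a1 a2.symm
  refine ns1 hnd hc hdim h0x hx2 h23 (fun h => ha h.2.1) (fun h => ?_)
  exfalso
  rw [hπ, hb] at h
  apply hu
  generalize QuadraticMap.polar Q (π ω₀) (π ω₂) = a at *
  generalize QuadraticMap.polar Q (π ω₁) (π ω₃) = b at *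
  generalize QuadraticMap.polar Q (π ω₀) (π ω₃) = c at *
  generalize π ω₀ = v0 at *
  generalize π ω₁ = v1 at *
  generalize π ω₂ = v2 at *
  generalize π ω₃ = v3 at *
  have h3 : (b + δ) • (v0 + a • (v1 + v2 + u) + v2) + a • (v3 + (v1 + v2 + u) + (b + δ) • v2) +
      (1 + a * (b + δ) + c) • (ρ + (v1 + v2 + u) + v2) =
      (b • (v0 + a • v1 + v2) + a • (v3 + v1 + b • v2) + (1 + a * b + c) • (ρ + v1 + v2)) +
      δ • (v0 + a • v1 + v2) + (a * δ) • (ρ + v1 + v2) +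
      (a * b + a + (1 + a * b + c)) • (v2 + u) + (a * δ) • v2 := by (match_scalars <;> (try ring_nf) <;> try simp only [two0, three1, four0, five1, six0, mul_zero, zero_mul, mul_one, one_mul, add_zero, zero_add, neg2] <;> try ring_nf)
  have h4 : a * b + a + (1 + a * b + c) = a * δ := by
    rw [haδ]; (ring_nf; try simp only [two0, three1, four0, five1, six0, mul_zero, zero_mul, mul_one, one_mul, add_zero, zero_add, neg2]; try ring_nf)
  rw [h3, hr, h4] at h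
  have h5 : (δ * a) • (a⁻¹ • (v0 + a • v1 + v2) + (ρ + v1 + v2) + u) = 0 := by
    rw [← h]
    have h6 : (δ * a) • (a⁻¹ • (v0 + a • v1 + v2) + (ρ + v1 + v2) + u) =
        (δ * (a * a⁻¹)) • (v0 + a • v1 + v2) + (δ * a) • ((ρ + v1 + v2) + u) := by module
    rw [h6, mul_inv_cancel₀ ha]
    (match_scalars <;> (try ring_nf) <;> try simp only [two0, three1, four0, five1, six0, mul_zero, zero_mul, mul_one, one_mul, add_zero, zero_add, neg2] <;> try ring_nf)
  have h6 := (smul_eq_zero.mp h5).resolve_left (mul_ne_zero hδ0 ha)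
  have h7 : u + (ρ + v1 + v2 + a⁻¹ • (v0 + a • v1 + v2)) = 0 := by rw [← h6]; module
  have h8 := vself K (ρ + v1 + v2 + a⁻¹ • (v0 + a • v1 + v2))
  exact add_right_cancel (h7.trans h8.symm)

/-- case (2) -/
lemma ns2 (hdim : 8 ≤ finrank K V) (hρ : Q ρ = 0 ∨ Q ρ = 1) {ω₀ ω₁ ω₂ ω₃ : Ω} (h01 : E ω₀ ω₁)
    (h12 : E ω₁ ω₂) (h23 : E ω₂ ω₃)
    (hne : ¬ (1 + QuadraticMap.polar Q (π ω₀) (π ω₂) * QuadraticMap.polar Q (π ω₁) (π ω₃) + QuadraticMap.polar Q (π ω₀) (π ω₃) = 0 ∧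
      QuadraticMap.polar Q (π ω₀) (π ω₂) = 0 ∧ QuadraticMap.polar Q (π ω₁) (π ω₃) = 0)) : Near E ω₀ ω₃ := by
  have W := walk hc h01 h12 h23
  by_cases hr : QuadraticMap.polar Q (π ω₁) (π ω₃) • (π ω₀ + QuadraticMap.polar Q (π ω₀) (π ω₂) • π ω₁ + π ω₂) +
      QuadraticMap.polar Q (π ω₀) (π ω₂) • (π ω₃ + π ω₁ + QuadraticMap.polar Q (π ω₁) (π ω₃) • π ω₂) +
      (1 + QuadraticMap.polar Q (π ω₀) (π ω₂) * QuadraticMap.polar Q (π ω₁) (π ω₃) + QuadraticMap.polar Q (π ω₀) (π ω₃)) • (ρ + π ω₁ + π ω₂) = 0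
  swap
  · exact ns1 hnd hc hdim h01 h12 h23 hne (fun h => absurd h hr)
  by_cases hP : 1 + QuadraticMap.polar Q (π ω₀) (π ω₂) * QuadraticMap.polar Q (π ω₁) (π ω₃) + QuadraticMap.polar Q (π ω₀) (π ω₃) = 0
  · exact ns1 hnd hc hdim h01 h12 h23 hne (fun _ => hP)
  by_cases h1 : QuadraticMap.polar Q (π ω₀) (π ω₂) ≠ 0 ∧ QuadraticMap.polar Q (π ω₀) (π ω₂) + 1 + QuadraticMap.polar Q (π ω₀) (π ω₃) ≠ 0
  · exact ns2a hnd hc hdim h01 h12 h23 h1.1 h1.2 hr
  by_cases h2 : QuadraticMap.polar Q (π ω₁) (π ω₃) ≠ 0 ∧ QuadraticMap.polar Q (π ω₁) (π ω₃) + 1 + QuadraticMap.polar Q (π ω₀) (π ω₃) ≠ 0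
  · refine near_symm hc (ns2a hnd hc hdim (hc.symm _ _ h23) (hc.symm _ _ h12) (hc.symm _ _ h01)
      ?_ ?_ ?_)
    · rw [p_comm]; exact h2.1
    · rw [p_comm Q (π ω₃) (π ω₁), p_comm Q (π ω₃) (π ω₀)]; exact h2.2
    · rw [p_comm Q (π ω₃) (π ω₁), p_comm Q (π ω₃) (π ω₀), p_comm Q (π ω₂) (π ω₀), ← hr]
      module
  exfalso
  push Not at h1 h2
  have qp := W.qp
  have qs := W.qs
  have qr := W.qr
  have ps := W.ps
  have r_ne := W.r_ne
  have n01 := W.a01.2
  have n23 := W.a23.2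
  clear W
  generalize QuadraticMap.polar Q (π ω₀) (π ω₂) = a at *
  generalize QuadraticMap.polar Q (π ω₁) (π ω₃) = b at *
  generalize QuadraticMap.polar Q (π ω₀) (π ω₃) = c at *
  generalize π ω₀ = v0 at *
  generalize π ω₁ = v1 at *
  generalize π ω₂ = v2 at *
  generalize π ω₃ = v3 at *
  by_cases ha : a = 0
  · by_cases hb : b = 0
    · rw [ha, hb] at hr hP
      have h3 : (1 + 0 * 0 + c) • (ρ + v1 + v2) = 0 := by
        rw [← hr]; module
      exact r_ne ((smul_eq_zero.mp h3).resolve_left hP)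
    · have h3 := h2 hb
      have hbc : b = 1 + c := by
        have : b - (1 + c) = 0 := by rw [sub_eq_add_neg, neg2, ← add_assoc]; exact h3
        exact sub_eq_zero.mp this
      rw [ha] at hr
      have h4 : b • (v0 + v1 + ρ) = 0 := by
        rw [← hr, hbc]
        (match_scalars <;> (try ring_nf) <;> try simp only [two0, three1, four0, five1, six0, mul_zero, zero_mul, mul_one, one_mul, add_zero, zero_add, neg2] <;> try ring_nf)
      have h5 := (smul_eq_zero.mp h4).resolve_left hb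
      apply n01
      exact add_right_cancel (h5.trans (vself K ρ).symm)
  · have h3 := h1 ha
    have hac : a = 1 + c := by
      have : a - (1 + c) = 0 := by rw [sub_eq_add_neg, neg2, ← add_assoc]; exact h3
      exact sub_eq_zero.mp this
    by_cases hb : b = 0
    · rw [hb] at hr
      have h4 : a • (v2 + v3 + ρ) = 0 := by
        rw [← hr, hac]
        (match_scalars <;> (try ring_nf) <;> try simp only [two0, three1, four0, five1, six0, mul_zero, zero_mul, mul_one, one_mul, add_zero, zero_add, neg2] <;> try ring_nf)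
      have h5 := (smul_eq_zero.mp h4).resolve_left ha
      apply n23
      exact add_right_cancel (h5.trans (vself K ρ).symm)
    · have h4 := h2 hb
      have hbc : b = 1 + c := by
        have : b - (1 + c) = 0 := by rw [sub_eq_add_neg, neg2, ← add_assoc]; exact h4
        exact sub_eq_zero.mp this
      have hab : b = a := hbc.trans hac.symm
      subst hab
      have hP' : 1 + b * b + c = b * (1 + b) := by rw [← add_right_comm, ← hbc]; ring
      rw [hP'] at hP hr ps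
      have hb1 : 1 + b ≠ 0 := fun h => hP (by rw [h, mul_zero])
      have h5 : b • ((v0 + b • v1 + v2) + (v3 + v1 + b • v2) + (1 + b) • (ρ + v1 + v2)) = 0 := by
        rw [← hr]; module
      have h6 := (smul_eq_zero.mp h5).resolve_left ha
      have h7 : (1 + b) • (ρ + v1 + v2) = (v0 + b • v1 + v2) + (v3 + v1 + b • v2) := by
        have h8 := vself K ((1 + b) • (ρ + v1 + v2))
        exact (add_right_cancel (h6.trans h8.symm)).symm
      have h8 := congrArg Q h7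
      rw [q_smul, qr, q_add Q (v0 + b • v1 + v2), qp, qs, ps] at h8
      have h9 : (1 + b) * ((1 + b) * (Q ρ + 1) + b) = 0 := by
        have h10 : (1 + b) * ((1 + b) * (Q ρ + 1) + b) = (1 + b) * (1 + b) * (Q ρ + 1) +
          b * (1 + b) := by ring
        rw [h10, h8]
        (ring_nf; try simp only [two0, three1, four0, five1, six0, mul_zero, zero_mul, mul_one, one_mul, add_zero, zero_add, neg2]; try ring_nf)
      have h10 := (mul_eq_zero.mp h9).resolve_left hb1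
      rcases hρ with h11 | h11
      · rw [h11] at h10
        have : (1 : K) = 0 := by
          rw [← h10]; (ring_nf; try simp only [two0, three1, four0, five1, six0, mul_zero, zero_mul, mul_one, one_mul, add_zero, zero_add, neg2]; try ring_nf)
        exact one_ne_zero this
      · rw [h11] at h10
        apply ha
        rw [← h10]
        (ring_nf; try simp only [two0, three1, four0, five1, six0, mul_zero, zero_mul, mul_one, one_mul, add_zero, zero_add, neg2]; try ring_nf)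

/-- case (3), the moves -/
lemma near_iso (hdim : 8 ≤ finrank K V) (hρ : Q ρ = 0 ∨ Q ρ = 1) {ω₀ ω₁ ω₂ ω₃ : Ω}
    (h01 : E ω₀ ω₁) (h12 : E ω₁ ω₂) (h23 : E ω₂ ω₃) (ha : QuadraticMap.polar Q (π ω₀) (π ω₂) = 0)
    (hb : QuadraticMap.polar Q (π ω₁) (π ω₃) = 0) (hc1 : QuadraticMap.polar Q (π ω₀) (π ω₃) = 1) (δ : K) (hδ0 : δ ≠ 0) (hδ1 : δ ≠ 1)
    (hcons : ∀ x y z : K, x • (π ω₀ + π ω₂) + y • (π ω₃ + π ω₁) + z • (ρ + π ω₁ + π ω₂) = 0 →
      y * (1 + δ) + z = 0) : Near E ω₀ ω₃ := by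
  have W := walk hc h01 h12 h23
  have e1 : π ω₀ + QuadraticMap.polar Q (π ω₀) (π ω₂) • π ω₁ + π ω₂ = π ω₀ + π ω₂ := by rw [ha]; module
  have e2 : π ω₃ + π ω₁ + QuadraticMap.polar Q (π ω₁) (π ω₃) • π ω₂ = π ω₃ + π ω₁ := by rw [hb]; module
  obtain ⟨u, u1, u2, up, us, ur, uQ⟩ := solve5_iso hnd W.a12.1 W.p1 W.p2 W.s1 W.s2 W.r1 W.r2
    (by rw [W.ps, ha, hb, hc1]; (ring_nf; try simp only [two0, three1, four0, five1, six0, mul_zero, zero_mul, mul_one, one_mul, add_zero, zero_add, neg2]; try ring_nf)) (by rw [W.pr, ha]) (by rw [W.sr, hb])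
    (QuadraticMap.polar Q (π ω₀) (π ω₂)) (1 + δ) 1 (by
      intro x y z h
      rw [e1, e2] at h
      rw [ha]
      linear_combination hcons x y z h) (by rw [W.qs, hb]; ring) (fun h => hδ1 (by
        have : 1 + δ - (1 + 1) = 0 := by rw [h, CharTwo.add_self_eq_zero]; ring
        linear_combination this)) 0
  obtain ⟨m, a0, a1, a2⟩ := W.new u1 u2 up ur uQ
  obtain ⟨-, -, hb'⟩ := W.move u1 u2 up us ur uQ
  obtain ⟨ωx, h0x, hx2, hπ⟩ := exists_move hc h01 h12 m a0 a1 a2.symm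
  refine ns2 hnd hc hdim hρ h0x hx2 h23 (fun h => hδ0 ?_)
  have h1 := h.2.2
  rw [hπ, hb', hb, zero_add] at h1
  exact h1

/-- case (3b), first half -/
lemma ns3b_aux (hdim : 8 ≤ finrank K V) (hρ : Q ρ = 0 ∨ Q ρ = 1) {ω₀ ω₁ ω₂ ω₃ : Ω}
    (h01 : E ω₀ ω₁) (h12 : E ω₁ ω₂) (h23 : E ω₂ ω₃) (ha : QuadraticMap.polar Q (π ω₀) (π ω₂) = 0)
    (hb : QuadraticMap.polar Q (π ω₁) (π ω₃) = 0) (hc1 : QuadraticMap.polar Q (π ω₀) (π ω₃) = 1)
    (hind : ∀ x y : K, x • (π ω₀ + π ω₂) + y • (π ω₃ + π ω₁) = 0 → x = 0 ∧ y = 0) (c0 c3 : K)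
    (hr : ρ + π ω₁ + π ω₂ = c0 • (π ω₀ + π ω₂) + c3 • (π ω₃ + π ω₁)) (h30 : c3 ≠ 0)
    (h31 : c3 ≠ 1) : Near E ω₀ ω₃ := by
  refine near_iso hnd hc hdim hρ h01 h12 h23 ha hb hc1 (1 + c3⁻¹) ?_ ?_ ?_
  · intro h
    apply h31
    have h1 : c3⁻¹ = 1 := by
      have : 1 + c3⁻¹ - (1 + 1) = 0 := by rw [h, CharTwo.add_self_eq_zero]; ring
      linear_combination this
    rw [← inv_inv c3, h1, inv_one]
  · intro h
    apply h30
    have h1 : c3⁻¹ = 0 := by linear_combination h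
    exact inv_eq_zero.mp h1
  · intro x y z h
    rw [hr] at h
    have h1 : (x + z * c0) • (π ω₀ + π ω₂) + (y + z * c3) • (π ω₃ + π ω₁) = 0 := by
      rw [← h]; module
    obtain ⟨-, h2⟩ := hind _ _ h1
    have h3 : y = z * c3 := by
      have : y - z * c3 = 0 := by rw [sub_eq_add_neg, neg2]; exact h2
      exact sub_eq_zero.mp this
    have h4 : 1 + (1 + c3⁻¹) = c3⁻¹ := by (ring_nf; try simp only [two0, three1, four0, five1, six0, mul_zero, zero_mul, mul_one, one_mul, add_zero, zero_add, neg2]; try ring_nf)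
    rw [h4, h3, mul_assoc, mul_inv_cancel₀ h30, mul_one, CharTwo.add_self_eq_zero]

/-- case (3b) -/
lemma ns3b (hdim : 8 ≤ finrank K V) (hρ : Q ρ = 0 ∨ Q ρ = 1) {ω₀ ω₁ ω₂ ω₃ : Ω}
    (h01 : E ω₀ ω₁) (h12 : E ω₁ ω₂) (h23 : E ω₂ ω₃) (ha : QuadraticMap.polar Q (π ω₀) (π ω₂) = 0)
    (hb : QuadraticMap.polar Q (π ω₁) (π ω₃) = 0) (hc1 : QuadraticMap.polar Q (π ω₀) (π ω₃) = 1)
    (hind : ∀ x y : K, x • (π ω₀ + π ω₂) + y • (π ω₃ + π ω₁) = 0 → x = 0 ∧ y = 0) (c0 c3 : K)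
    (hr : ρ + π ω₁ + π ω₂ = c0 • (π ω₀ + π ω₂) + c3 • (π ω₃ + π ω₁))
    (hbad : ¬ (c0 = 1 ∧ c3 = 1)) : Near E ω₀ ω₃ := by
  have W := walk hc h01 h12 h23
  by_cases h3 : c3 ≠ 0 ∧ c3 ≠ 1
  · exact ns3b_aux hnd hc hdim hρ h01 h12 h23 ha hb hc1 hind c0 c3 hr h3.1 h3.2
  by_cases h0 : c0 ≠ 0 ∧ c0 ≠ 1
  · refine near_symm hc (ns3b_aux hnd hc hdim hρ (hc.symm _ _ h23) (hc.symm _ _ h12)
      (hc.symm _ _ h01) (by rw [p_comm]; exact hb) (by rw [p_comm]; exact ha)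
      (by rw [p_comm]; exact hc1) ?_ c3 c0 ?_ h0.1 h0.2)
    · intro x y h
      have h4 := hind y x (by rw [← h]; module)
      exact ⟨h4.2, h4.1⟩
    · rw [add_right_comm, hr]; module
  exfalso
  have h3' : c3 = 0 ∨ c3 = 1 := by
    by_contra h; push Not at h; exact h3 h
  have h0' : c0 = 0 ∨ c0 = 1 := by
    by_contra h; push Not at h; exact h0 h
  rcases h0' with rfl | rfl <;> rcases h3' with rfl | rfl
  · apply W.r_ne
    rw [hr]; module
  · apply W.a23.2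
    have h4 : π ω₂ + π ω₃ + ρ = 0 := by
      have h5 : ρ + π ω₁ + π ω₂ + (π ω₃ + π ω₁) = 0 := by
        rw [hr, zero_smul, one_smul, zero_add]; exact vself K _
      have h6 := vself K (π ω₁)
      linear_combination (norm := module) (1 : K) • h5 - (1 : K) • h6
    exact add_right_cancel (h4.trans (vself K ρ).symm)
  · apply W.a01.2
    have h4 : π ω₀ + π ω₁ + ρ = 0 := by
      have h5 : ρ + π ω₁ + π ω₂ + (π ω₀ + π ω₂) = 0 := by
        rw [hr, zero_smul, one_smul, add_zero]; exact vself K _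
      have h6 := vself K (π ω₂)
      linear_combination (norm := module) (1 : K) • h5 - (1 : K) • h6
    exact add_right_cancel (h4.trans (vself K ρ).symm)
  · exact hbad ⟨rfl, rfl⟩

/-- case (3a) -/
lemma ns3a (hdim : 8 ≤ finrank K V) (hq : 4 ≤ Fintype.card K) (hρ : Q ρ = 0 ∨ Q ρ = 1)
    {ω₀ ω₁ ω₂ ω₃ : Ω} (h01 : E ω₀ ω₁) (h12 : E ω₁ ω₂) (h23 : E ω₂ ω₃)
    (ha : QuadraticMap.polar Q (π ω₀) (π ω₂) = 0) (hb : QuadraticMap.polar Q (π ω₁) (π ω₃) = 0) (hc1 : QuadraticMap.polar Q (π ω₀) (π ω₃) = 1)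
    (hp0 : π ω₀ + π ω₂ ≠ 0)
    (hr : ∀ x y z : K, x • (π ω₀ + π ω₂) + y • (π ω₃ + π ω₁) + z • (ρ + π ω₁ + π ω₂) = 0 →
      z = 0) : Near E ω₀ ω₃ := by
  have W := walk hc h01 h12 h23
  by_cases hind : ∀ x y : K, x • (π ω₀ + π ω₂) + y • (π ω₃ + π ω₁) = 0 → x = 0 ∧ y = 0
  · obtain ⟨δ, hδ0, hδ1, -⟩ := exists_scalar hq (0 : K) 1 1
    refine near_iso hnd hc hdim hρ h01 h12 h23 ha hb hc1 δ hδ0 hδ1 (fun x y z h => ?_)
    have hz := hr x y z h
    rw [hz, zero_smul, add_zero] at h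
    rw [hz, (hind x y h).2]; ring
  · push Not at hind
    obtain ⟨x, y, hxy, h0⟩ := hind
    have hy : y ≠ 0 := by
      rintro rfl
      by_cases hx : x = 0
      · exact h0 hx rfl
      · rw [zero_smul, add_zero] at hxy
        exact hp0 ((smul_eq_zero.mp hxy).resolve_left hx)
    have hs : π ω₃ + π ω₁ = (y⁻¹ * x) • (π ω₀ + π ω₂) := by
      have h1 : y • (π ω₃ + π ω₁) = x • (π ω₀ + π ω₂) :=
        (add_left_cancel (hxy.trans (vself K _).symm))
      rw [mul_smul, ← h1, smul_smul, inv_mul_cancel₀ hy, one_smul]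
    have e1 : π ω₀ + QuadraticMap.polar Q (π ω₀) (π ω₂) • π ω₁ + π ω₂ = π ω₀ + π ω₂ := by rw [ha]; module
    have e2 : π ω₃ + π ω₁ + QuadraticMap.polar Q (π ω₁) (π ω₃) • π ω₂ = π ω₃ + π ω₁ := by rw [hb]; module
    obtain ⟨u, u1, u2, up, ur, uQ⟩ := solve4 hnd hdim W.a12.1 W.p1 W.p2 W.r1 W.r2
      (QuadraticMap.polar Q (π ω₀) (π ω₂)) 1 (by
        intro x z h
        rw [e1] at h
        have hz := hr x 0 z (by rw [← h]; module)
        rw [ha, hz]; ring) 0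
    have us : QuadraticMap.polar Q u (π ω₃ + π ω₁ + QuadraticMap.polar Q (π ω₁) (π ω₃) • π ω₂) = QuadraticMap.polar Q (π ω₁) (π ω₃) := by
      rw [e2, hs, p_smul_right, ← e1, up, ha, hb, mul_zero]
    obtain ⟨m, a0, a1, a2, a3⟩ := W.direct u1 u2 up us ur uQ
    exact near_direct hc h01 h12 h23 m a0 a1 a2 a3

/-- case (3c) -/
lemma ns3c (hdim : 8 ≤ finrank K V) (hρ : Q ρ = 0 ∨ Q ρ = 1)
    {ω₀ ω₁ ω₂ ω₃ : Ω} (h01 : E ω₀ ω₁) (h12 : E ω₁ ω₂) (h23 : E ω₂ ω₃)
    (ha : QuadraticMap.polar Q (π ω₀) (π ω₂) = 0) (hb : QuadraticMap.polar Q (π ω₁) (π ω₃) = 0) (hc1 : QuadraticMap.polar Q (π ω₀) (π ω₃) = 1)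
    (hp0 : π ω₀ + π ω₂ ≠ 0) (τ c : K) (hs : π ω₃ + π ω₁ = τ • (π ω₀ + π ω₂))
    (hr : ρ + π ω₁ + π ω₂ = c • (π ω₀ + π ω₂)) (hbad : π ω₃ ≠ π ω₀ + ρ) : Near E ω₀ ω₃ := by
  have W := walk hc h01 h12 h23
  -- restrictions on the coefficients
  have hc0 : c ≠ 0 := by
    rintro rfl
    exact W.r_ne (by rw [hr, zero_smul])
  have hc1' : c ≠ 1 := by
    rintro rfl
    apply W.a01.2
    have h4 : π ω₀ + π ω₁ + ρ = 0 := by
      have h5 : ρ + π ω₁ + π ω₂ + (π ω₀ + π ω₂) = 0 := by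
        rw [hr, one_smul]; exact vself K _
      have h6 := vself K (π ω₂)
      linear_combination (norm := module) (1 : K) • h5 - (1 : K) • h6
    exact add_right_cancel (h4.trans (vself K ρ).symm)
  have hcτ : c + τ ≠ 0 := by
    intro h
    apply W.a23.2
    have h4 : π ω₂ + π ω₃ + ρ = 0 := by
      have h5 : ρ + π ω₁ + π ω₂ + (π ω₃ + π ω₁) = 0 := by
        rw [hr, hs, ← add_smul, h, zero_smul]
      have h6 := vself K (π ω₁)
      linear_combination (norm := module) (1 : K) • h5 - (1 : K) • h6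
    exact add_right_cancel (h4.trans (vself K ρ).symm)
  have hcτ1 : c + τ ≠ 1 := by
    intro h
    apply hbad
    have h4 : π ω₃ + (π ω₀ + ρ) = 0 := by
      have h5 : (ρ + π ω₁ + π ω₂ + (π ω₃ + π ω₁)) + (π ω₀ + π ω₂) = 0 := by
        rw [hr, hs, ← add_smul, h, one_smul]; exact vself K _
      have h6 := vself K (π ω₁)
      have h7 := vself K (π ω₂)
      linear_combination (norm := module) (1 : K) • h5 - (1 : K) • h6 - (1 : K) • h7
    exact add_right_cancel (h4.trans (vself K (π ω₀ + ρ)).symm)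
  -- an isotropic vector
  obtain ⟨u, hu, hus, hQu⟩ := exists_iso' (Q := Q) (LinearMap.BilinForm.orthogonal Q.polarBilin
    (Submodule.span K (Set.range ![π ω₁, π ω₂, π ω₀ + π ω₂]))) (by
      rw [finrank_orth hnd]
      have := finrank_range_le_card (R := K) (b := ![π ω₁, π ω₂, π ω₀ + π ω₂])
      have h5 : finrank K (Submodule.span K (Set.range ![π ω₁, π ω₂, π ω₀ + π ω₂])) ≤ 3 := by
        simpa [Set.finrank] using this
      omega) (π ω₀ + π ω₂)
  have horth : ∀ i, QuadraticMap.polar Q u (![π ω₁, π ω₂, π ω₀ + π ω₂] i) = 0 := fun i => by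
    rw [p_comm]; exact hu _ (Submodule.subset_span ⟨i, rfl⟩)
  have u1 : QuadraticMap.polar Q u (π ω₁) = 0 := horth 0
  have u2 : QuadraticMap.polar Q u (π ω₂) = 0 := horth 1
  have up : QuadraticMap.polar Q u (π ω₀ + π ω₂) = 0 := horth 2
  have u0 : QuadraticMap.polar Q u (π ω₀) = 0 := by
    rw [p_add_right, u2, add_zero] at up; exact up
  have ur : QuadraticMap.polar Q u ρ = 0 := by
    have h1 : QuadraticMap.polar Q u (ρ + π ω₁ + π ω₂) = 0 := by rw [hr, p_smul_right, up, mul_zero]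
    rw [p_add_right, p_add_right, u1, u2] at h1
    linear_combination h1
  have u3 : QuadraticMap.polar Q u (π ω₃) = 0 := by
    have h1 : QuadraticMap.polar Q u (π ω₃ + π ω₁) = 0 := by rw [hs, p_smul_right, up, mul_zero]
    rw [p_add_right, u1] at h1
    linear_combination h1
  -- the new vertex
  have hind1 : ∀ x y : K, x • u + y • (π ω₀ + π ω₂) = 0 → x = 0 ∧ y = 0 := by
    intro x y h
    have hx : x = 0 := by
      by_contra hx
      apply hus
      rw [Submodule.mem_span_singleton]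
      refine ⟨x⁻¹ * y, ?_⟩
      have h1 : x • u = y • (π ω₀ + π ω₂) := add_right_cancel (h.trans (vself K _).symm)
      rw [mul_smul, ← h1, smul_smul, inv_mul_cancel₀ hx, one_smul]
    rw [hx, zero_smul, zero_add] at h
    exact ⟨hx, (smul_eq_zero.mp h).resolve_right hp0⟩
  have hwX : π ω₁ + u ∈ XX Q ρ := by
    refine ⟨?_, ?_⟩
    · rw [p_add_left, W.m1.1, ur, add_zero]
    · rw [q_add, W.m1.2, hQu, p_comm, u1, add_zero, add_zero]
  have hw0 : AA Q ρ (π ω₀) (π ω₁ + u) := by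
    refine ⟨by rw [p_add_right, W.a01.1, p_comm Q (π ω₀) u, u0, add_zero], fun h => ?_⟩
    have h1 : u + (1 + c) • (π ω₀ + π ω₂) = 0 := by
      have h2 : (π ω₀ + π ω₂) + (ρ + π ω₁ + π ω₂) = (1 + c) • (π ω₀ + π ω₂) := by
        rw [hr]; module
      rw [← h2, ← h]
      have h3 := vself K (π ω₀)
      have h4 := vself K (π ω₁)
      have h5 := vself K (π ω₂)
      have h6 := vself K u
      linear_combination (norm := module) (1 : K) • h3 + (1 : K) • h4 + (1 : K) • h5 + (1 : K) • h6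
    have h2 := (hind1 1 (1 + c) (by rw [one_smul]; exact h1)).1
    exact one_ne_zero h2
  have hw2 : AA Q ρ (π ω₁ + u) (π ω₂) := by
    refine ⟨by rw [p_add_left, W.a12.1, u2, add_zero], fun h => ?_⟩
    have h1 : u + c • (π ω₀ + π ω₂) = 0 := by
      rw [← hr, ← h]
      have h4 := vself K (π ω₁)
      have h5 := vself K (π ω₂)
      have h6 := vself K u
      linear_combination (norm := module) (1 : K) • h4 + (1 : K) • h5 + (1 : K) • h6
    have h2 := (hind1 1 c (by rw [one_smul]; exact h1)).1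
    exact one_ne_zero h2
  obtain ⟨ωw, h0w, hπw⟩ := hc.lift ω₀ _ hwX hw0
  -- it is adjacent to `ω₂`
  have hwE : E ωw ω₂ := by
    obtain ⟨ω', hw', hπ'⟩ := hc.lift ωw (π ω₂) (hc.mem _) (by rw [hπw]; exact hw2)
    have hN : Near E ω₁ ω' := by
      refine ns3b hnd hc hdim hρ (hc.symm _ _ h01) h0w hw' ?_ ?_ ?_ ?_ 1 (c + 1) ?_ ?_
      · rw [hπw, p_add_right, p_self, p_comm Q (π ω₁) u, u1, add_zero]
      · rw [hπ', ha]
      · rw [hπ', W.a12.1]
      · intro x y h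
        refine hind1 x y ?_
        rw [hπw, hπ'] at h
        have h1 := vself K (π ω₁)
        linear_combination (norm := module) (1 : K) • h - x • h1
      · rw [hπw, hπ']
        have h1 := vself K (π ω₁)
        have h2 := vself K (π ω₂)
        linear_combination (norm := module) (1 : K) • hr - (1 : K) • h1 - (1 : K) • h2
      · intro h
        apply hc0
        linear_combination h.2
    have hA : AA Q ρ (π ω₁) (π ω') := by rw [hπ']; exact W.a12
    have h1' : E ω₁ ω' := by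
      rcases hN with h | h | ⟨x, hx1, hx2⟩
      · rw [← h] at hA
        exact absurd hA.1 (by rw [p_self]; exact zero_ne_one)
      · exact h
      · exact hc.tri _ _ _ hx1 hx2 hA
    have : ω' = ω₂ := hc.uniq ω₁ _ _ h1' h12 hπ'
    rwa [← this]
  refine ns3b hnd hc hdim hρ h0w hwE h23 ha ?_ hc1 ?_ (c + τ) 1 ?_ (fun h => hcτ1 h.1)
  · rw [hπw, p_add_left, hb, u3, add_zero]
  · intro x y h
    rw [hπw] at h
    have h1 : y • u + (x + y * τ) • (π ω₀ + π ω₂) = 0 := by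
      linear_combination (norm := module) (1 : K) • h - y • hs
    obtain ⟨hy, hx⟩ := hind1 _ _ h1
    rw [hy, zero_mul, add_zero] at hx
    exact ⟨hx, hy⟩
  · rw [hπw]
    have h1 := vself K (π ω₁)
    have h2 := vself K (τ • (π ω₀ + π ω₂))
    linear_combination (norm := module) (1 : K) • hr - (1 : K) • hs - (1 : K) • h2

/-- contraction of three-walks -/
lemma ns (hdim : 8 ≤ finrank K V) (hq : 4 ≤ Fintype.card K) (hρ : Q ρ = 0 ∨ Q ρ = 1)
    {ω₀ ω₁ ω₂ ω₃ : Ω} (h01 : E ω₀ ω₁) (h12 : E ω₁ ω₂) (h23 : E ω₂ ω₃)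
    (hbad : ¬ (Q ρ = 1 ∧ π ω₃ = π ω₀ + ρ)) : Near E ω₀ ω₃ := by
  have W := walk hc h01 h12 h23
  -- trivial cases
  by_cases t02 : π ω₀ = π ω₂
  · have h1 := hc.uniq ω₁ ω₀ ω₂ (hc.symm _ _ h01) h12 t02
    rw [h1]
    exact Or.inr (Or.inl h23)
  by_cases hne : 1 + QuadraticMap.polar Q (π ω₀) (π ω₂) * QuadraticMap.polar Q (π ω₁) (π ω₃) + QuadraticMap.polar Q (π ω₀) (π ω₃) = 0 ∧
      QuadraticMap.polar Q (π ω₀) (π ω₂) = 0 ∧ QuadraticMap.polar Q (π ω₁) (π ω₃) = 0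
  swap
  · exact ns2 hnd hc hdim hρ h01 h12 h23 hne
  obtain ⟨hP, ha, hb⟩ := hne
  have hc1 : QuadraticMap.polar Q (π ω₀) (π ω₃) = 1 := by
    rw [ha, zero_mul, add_zero] at hP
    have : QuadraticMap.polar Q (π ω₀) (π ω₃) - 1 = 0 := by rw [sub_eq_add_neg, neg2, add_comm]; exact hP
    exact sub_eq_zero.mp this
  have hp0 : π ω₀ + π ω₂ ≠ 0 := fun h => t02 (add_right_cancel (h.trans (vself K _).symm))
  by_cases hr : ∀ x y z : K, x • (π ω₀ + π ω₂) + y • (π ω₃ + π ω₁) +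
      z • (ρ + π ω₁ + π ω₂) = 0 → z = 0
  · exact ns3a hnd hc hdim hq hρ h01 h12 h23 ha hb hc1 hp0 hr
  push Not at hr
  obtain ⟨x, y, z, hxyz, hz⟩ := hr
  have hr' : ρ + π ω₁ + π ω₂ = (z⁻¹ * x) • (π ω₀ + π ω₂) + (z⁻¹ * y) • (π ω₃ + π ω₁) := by
    have h1 : z • (ρ + π ω₁ + π ω₂) = x • (π ω₀ + π ω₂) + y • (π ω₃ + π ω₁) :=
      (add_left_cancel (hxyz.trans (vself K _).symm))
    have h2 := congrArg (fun v => z⁻¹ • v) h1
    simp only [smul_smul, inv_mul_cancel₀ hz, one_smul, smul_add] at h2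
    rw [h2]
    simp only [smul_add]
  by_cases hind : ∀ x y : K, x • (π ω₀ + π ω₂) + y • (π ω₃ + π ω₁) = 0 → x = 0 ∧ y = 0
  · refine ns3b hnd hc hdim hρ h01 h12 h23 ha hb hc1 hind _ _ hr' (fun h => hbad ?_)
    rw [h.1, h.2, one_smul, one_smul] at hr'
    have h3 : π ω₃ = π ω₀ + ρ := by
      have h4 : π ω₃ + (π ω₀ + ρ) = 0 := by
        have h7 := vself K (π ω₃)
        have h8 := vself K (π ω₀)
        linear_combination (norm := module) (1 : K) • hr' + (1 : K) • h7 + (1 : K) • h8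
      exact add_right_cancel (h4.trans (vself K _).symm)
    refine ⟨?_, h3⟩
    have h4 : ρ = π ω₀ + π ω₃ := by
      rw [h3]
      have h8 := vself K (π ω₀)
      linear_combination (norm := module) (-1 : K) • h8
    rw [h4, q_add, W.m0.2, W.m3.2, hc1]
    (ring_nf; try simp only [two0, three1, four0, five1, six0, mul_zero, zero_mul, mul_one, one_mul, add_zero, zero_add, neg2]; try ring_nf)
  · push Not at hind
    obtain ⟨x', y', hxy, h0⟩ := hind
    have hy : y' ≠ 0 := by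
      rintro rfl
      by_cases hx : x' = 0
      · exact h0 hx rfl
      · rw [zero_smul, add_zero] at hxy
        exact hp0 ((smul_eq_zero.mp hxy).resolve_left hx)
    have hs : π ω₃ + π ω₁ = (y'⁻¹ * x') • (π ω₀ + π ω₂) := by
      have h1 : y' • (π ω₃ + π ω₁) = x' • (π ω₀ + π ω₂) :=
        (add_left_cancel (hxy.trans (vself K _).symm))
      rw [mul_smul, ← h1, smul_smul, inv_mul_cancel₀ hy, one_smul]
    by_cases hb' : π ω₃ = π ω₀ + ρ
    · exfalso
      refine hbad ⟨?_, hb'⟩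
      have h4 : ρ = π ω₀ + π ω₃ := by
        rw [hb']
        have h8 := vself K (π ω₀)
        linear_combination (norm := module) (-1 : K) • h8
      rw [h4, q_add, W.m0.2, W.m3.2, hc1]
      (ring_nf; try simp only [two0, three1, four0, five1, six0, mul_zero, zero_mul, mul_one, one_mul, add_zero, zero_add, neg2]; try ring_nf)
    refine ns3c hnd hc hdim hρ h01 h12 h23 ha hb hc1 hp0 (y'⁻¹ * x')
      (z⁻¹ * x + z⁻¹ * y * (y'⁻¹ * x')) hs ?_ hb'
    rw [hr', hs]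
    module

omit hc hnd in
/-- part (B) of the covering theorem -/
theorem SC_even {K V : Type*} [Field K] [Fintype K] [CharP K 2] (hq : 4 ≤ Fintype.card K)
    [AddCommGroup V] [Module K V] [FiniteDimensional K V] (Q : QuadraticForm K V)
    (hnd : ∀ x, (∀ y, QuadraticMap.polar Q x y = 0) → x = 0) (hdim : 8 ≤ Module.finrank K V)
    (ρ : V) (hρ0 : ρ ≠ 0) (hρ : Q ρ = 0 ∨ Q ρ = 1) {Ω : Type*} {E : Ω → Ω → Prop} {π : Ω → V}
    (hc : Cover {v : V | QuadraticMap.polar Q v ρ = 1 ∧ Q v = 1}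
      (fun v w => QuadraticMap.polar Q v w = 1 ∧ v + w ≠ ρ) E π) : Function.Injective π := by
  have hc' : Cover (XX Q ρ) (AA Q ρ) E π := hc
  refine cover_injective hc' (fun v w => Q ρ = 1 ∧ w = v + ρ) (fun v _ h => ?_)
    (fun v w h => h.symm) (fun v w h hb => ?_) (fun ω₀ ω₁ ω₂ ω₃ h01 h12 h23 hbad =>
      ns hnd hc' hdim hq hρ h01 h12 h23 hbad) ?_
  · exact absurd h.1 (by rw [p_self]; exact zero_ne_one)
  · apply h.2
    rw [hb.2]
    have h8 := vself K v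
    linear_combination (norm := module) (1 : K) • h8
  · intro v₀ h0 v₁ h1 v₂ h2 v₄ h4 a01 a12 hb
    -- an isotropic vector
    obtain ⟨u, hu, hu0, hQu⟩ := exists_iso (Q := Q) (LinearMap.BilinForm.orthogonal Q.polarBilin
      (Submodule.span K (Set.range ![v₀, v₁, v₂, ρ]))) (by
        rw [finrank_orth hnd]
        have := finrank_range_le_card (R := K) (b := ![v₀, v₁, v₂, ρ])
        have h5 : finrank K (Submodule.span K (Set.range ![v₀, v₁, v₂, ρ])) ≤ 4 := by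
          simpa [Set.finrank] using this
        omega)
    have horth : ∀ i, QuadraticMap.polar Q u (![v₀, v₁, v₂, ρ] i) = 0 := fun i => by
      rw [p_comm]; exact hu _ (Submodule.subset_span ⟨i, rfl⟩)
    have u0 : QuadraticMap.polar Q u v₀ = 0 := horth 0
    have u1 : QuadraticMap.polar Q u v₁ = 0 := horth 1
    have u2 : QuadraticMap.polar Q u v₂ = 0 := horth 2
    have ur : QuadraticMap.polar Q u ρ = 0 := horth 3
    obtain ⟨l, hl0, hl1, hl2⟩ := exists_scale hq hu0 (v₀ + v₁ + ρ) (v₁ + v₂ + ρ)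
    refine ⟨v₁ + l • u, ⟨?_, ?_⟩, ⟨?_, fun h => hl1 ?_⟩, ⟨?_, fun h => hl2 ?_⟩, fun h => hl0 ?_⟩
    · rw [p_add_left, p_smul_left, ur, h1.1, mul_zero, add_zero]
    · rw [q_add, q_smul, hQu, h1.2, p_smul_right, p_comm, u1, mul_zero, mul_zero, add_zero,
        add_zero]
    · rw [p_add_right, p_smul_right, p_comm Q v₀ u, u0, a01.1, mul_zero, add_zero]
    · rw [← h]
      have h3 := vself K v₀
      have h5 := vself K v₁
      linear_combination (norm := module) (-1 : K) • h3 - (1 : K) • h5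
    · rw [p_add_left, p_smul_left, u2, a12.1, mul_zero, add_zero]
    · rw [← h]
      have h3 := vself K v₂
      have h5 := vself K v₁
      linear_combination (norm := module) (-1 : K) • h3 - (1 : K) • h5
    · have h3 := hb.2.symm.trans h.2
      have h5 : v₁ = v₁ + l • u := add_right_cancel h3
      exact left_eq_add.mp h5

end Pool.Agent.Helper84.YG
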