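import Pool.Agent.Helper84.YG.Tools

/-!
Systems of five linear equations and one quadratic equation.
-/

set_option autoImplicit false
set_option linter.unusedSectionVars false
set_option linter.style.longLine false
set_option linter.unusedSimpArgs false

namespace Pool.Agent.Helper84.YG

open Module

variable {K V : Type*} [Field K] [Finite K] [CharP K 2] [AddCommGroup V] [Module K V]
  [FiniteDimensional K V] {Q : QuadraticForm K V}
  (hnd : ∀ x, (∀ y, QuadraticMap.polar Q x y = 0) → x = 0)

omit [Finite K] [FiniteDimensional K V] in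
/-- relations between three vectors whose Gram matrix is not zero -/
lemma relation3 {p s r : V} (hne : ¬ (QuadraticMap.polar Q p s = 0 ∧ QuadraticMap.polar Q p r = 0 ∧ QuadraticMap.polar Q s r = 0)) {x y z : K}
    (h1 : y * QuadraticMap.polar Q p s + z * QuadraticMap.polar Q p r = 0) (h2 : x * QuadraticMap.polar Q p s + z * QuadraticMap.polar Q s r = 0)
    (h3 : x * QuadraticMap.polar Q p r + y * QuadraticMap.polar Q s r = 0) :
    ∃ l : K, x = l * QuadraticMap.polar Q s r ∧ y = l * QuadraticMap.polar Q p r ∧ z = l * QuadraticMap.polar Q p s := by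
  by_cases hP : QuadraticMap.polar Q p s = 0
  · by_cases ha : QuadraticMap.polar Q p r = 0
    · have hb : QuadraticMap.polar Q s r ≠ 0 := fun hb => hne ⟨hP, ha, hb⟩
      refine ⟨x / QuadraticMap.polar Q s r, by field_simp, ?_, ?_⟩
      · rw [ha, mul_zero, zero_add] at h3
        rw [ha, mul_zero]
        exact (mul_eq_zero.mp h3).resolve_right hb
      · rw [hP, mul_zero, zero_add] at h2
        rw [hP, mul_zero]
        exact (mul_eq_zero.mp h2).resolve_right hb
    · refine ⟨y / QuadraticMap.polar Q p r, ?_, by field_simp, ?_⟩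
      · field_simp
        have h4 : x * QuadraticMap.polar Q p r - y * QuadraticMap.polar Q s r = 0 := by
          rw [sub_eq_add_neg, neg2]; exact h3
        linear_combination h4
      · rw [hP, mul_zero, zero_add] at h1
        rw [hP, mul_zero]
        exact (mul_eq_zero.mp h1).resolve_right ha
  · refine ⟨z / QuadraticMap.polar Q p s, ?_, ?_, by field_simp⟩
    · field_simp
      have h4 : x * QuadraticMap.polar Q p s - z * QuadraticMap.polar Q s r = 0 := by
        rw [sub_eq_add_neg, neg2]; exact h2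
      linear_combination h4
    · field_simp
      have h4 : y * QuadraticMap.polar Q p s - z * QuadraticMap.polar Q p r = 0 := by
        rw [sub_eq_add_neg, neg2]; exact h1
      linear_combination h4

include hnd in
/-- the main system -/
lemma solve5 (hdim : 8 ≤ finrank K V) {v1 v2 p s r : V} (h12 : QuadraticMap.polar Q v1 v2 = 1)
    (hp1 : QuadraticMap.polar Q p v1 = 0) (hp2 : QuadraticMap.polar Q p v2 = 0) (hs1 : QuadraticMap.polar Q s v1 = 0) (hs2 : QuadraticMap.polar Q s v2 = 0)
    (hr1 : QuadraticMap.polar Q r v1 = 0) (hr2 : QuadraticMap.polar Q r v2 = 0) (hne : ¬ (QuadraticMap.polar Q p s = 0 ∧ QuadraticMap.polar Q p r = 0 ∧ QuadraticMap.polar Q s r = 0))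
    (tp ts tr : K) (hcons : QuadraticMap.polar Q s r • p + QuadraticMap.polar Q p r • s + QuadraticMap.polar Q p s • r = 0 →
      QuadraticMap.polar Q s r * tp + QuadraticMap.polar Q p r * ts + QuadraticMap.polar Q p s * tr = 0) (t : K) (z : V) :
    ∃ u, QuadraticMap.polar Q u v1 = 0 ∧ QuadraticMap.polar Q u v2 = 0 ∧ QuadraticMap.polar Q u p = tp ∧ QuadraticMap.polar Q u s = ts ∧ QuadraticMap.polar Q u r = tr ∧ Q u = t ∧ u ≠ z := by
  -- the pairings
  have h21 : QuadraticMap.polar Q v2 v1 = 1 := by rw [p_comm, h12]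
  have h1p : QuadraticMap.polar Q v1 p = 0 := by rw [p_comm, hp1]
  have h2p : QuadraticMap.polar Q v2 p = 0 := by rw [p_comm, hp2]
  have h1s : QuadraticMap.polar Q v1 s = 0 := by rw [p_comm, hs1]
  have h2s : QuadraticMap.polar Q v2 s = 0 := by rw [p_comm, hs2]
  have h1r : QuadraticMap.polar Q v1 r = 0 := by rw [p_comm, hr1]
  have h2r : QuadraticMap.polar Q v2 r = 0 := by rw [p_comm, hr2]
  -- pairings of a combination
  have hcomb : ∀ c : Fin 5 → K, ∀ x : V, x = ∑ i, c i • (![v1, v2, p, s, r] i) →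
      QuadraticMap.polar Q x v1 = c 1 ∧ QuadraticMap.polar Q x v2 = c 0 ∧ QuadraticMap.polar Q x p = c 3 * QuadraticMap.polar Q p s + c 4 * QuadraticMap.polar Q p r ∧
        QuadraticMap.polar Q x s = c 2 * QuadraticMap.polar Q p s + c 4 * QuadraticMap.polar Q s r ∧ QuadraticMap.polar Q x r = c 2 * QuadraticMap.polar Q p r + c 3 * QuadraticMap.polar Q s r := by
    intro c x hx
    have hx' : x = c 0 • v1 + c 1 • v2 + c 2 • p + c 3 • s + c 4 • r := by
      rw [hx, Fin.sum_univ_five]; rfl
    rw [hx']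
    simp only [p_add_left, p_smul_left, p_self, h12, h21, hp1, hp2, hs1, hs2, hr1, hr2, h1p, h2p,
      h1s, h2s, h1r, h2r, p_comm Q s p, p_comm Q r p, p_comm Q r s]
    refine ⟨by ring, by ring, by ring, by ring, by ring⟩
  obtain ⟨w, hw⟩ := solve_lin hnd ![v1, v2, p, s, r] ![0, 0, tp, ts, tr] (by
    intro c hc
    obtain ⟨e1, e2, e3, e4, e5⟩ := hcomb c 0 hc.symm
    simp only [p_zero_left] at e1 e2 e3 e4 e5
    obtain ⟨l, hx, hy, hz⟩ := relation3 hne e3.symm e4.symm e5.symm
    rw [Fin.sum_univ_five]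
    rw [Fin.sum_univ_five] at hc
    change c 0 * 0 + c 1 * 0 + c 2 * tp + c 3 * ts + c 4 * tr = 0
    change c 0 • v1 + c 1 • v2 + c 2 • p + c 3 • s + c 4 • r = 0 at hc
    rw [← e1, ← e2, zero_smul, zero_smul, zero_add, zero_add, hx, hy, hz] at hc
    have h4 : l • (QuadraticMap.polar Q s r • p + QuadraticMap.polar Q p r • s + QuadraticMap.polar Q p s • r) = 0 := by
      rw [← hc]; module
    rcases smul_eq_zero.mp h4 with h5 | h5
    · rw [hx, hy, hz, h5]; ring
    · rw [hx, hy, hz]
      linear_combination l * hcons h5)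
  set M : Submodule K V := Submodule.span K (Set.range ![v1, v2, p, s, r]) with hM
  have hMf : finrank K M ≤ 5 := by
    have := finrank_range_le_card (R := K) (b := ![v1, v2, p, s, r])
    simpa [Set.finrank] using this
  have hrad : (M ⊓ LinearMap.BilinForm.orthogonal Q.polarBilin M : Submodule K V) ≤
      Submodule.span K {QuadraticMap.polar Q s r • p + QuadraticMap.polar Q p r • s + QuadraticMap.polar Q p s • r} := by
    rintro x ⟨hx1, hx2⟩
    have hx1' : x ∈ M := hx1
    rw [hM, Submodule.mem_span_range_iff_exists_fun] at hx1'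
    obtain ⟨c, hc⟩ := hx1'
    obtain ⟨e1, e2, e3, e4, e5⟩ := hcomb c x hc.symm
    have hmem : ∀ i, ![v1, v2, p, s, r] i ∈ M := fun i => Submodule.subset_span ⟨i, rfl⟩
    have horth : ∀ i, QuadraticMap.polar Q x (![v1, v2, p, s, r] i) = 0 := fun i => by
      rw [p_comm]; exact hx2 _ (hmem i)
    have f1 : c 1 = 0 := e1.symm.trans (horth 0)
    have f2 : c 0 = 0 := e2.symm.trans (horth 1)
    obtain ⟨l, hx, hy, hz⟩ := relation3 hne (e3.symm.trans (horth 2)) (e4.symm.trans (horth 3))
      (e5.symm.trans (horth 4))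
    rw [Submodule.mem_span_singleton]
    refine ⟨l, ?_⟩
    rw [← hc, Fin.sum_univ_five]
    change _ = c 0 • v1 + c 1 • v2 + c 2 • p + c 3 • s + c 4 • r
    rw [f1, f2, hx, hy, hz]
    module
  have hradf := Submodule.finrank_mono hrad
  have h1f : finrank K (Submodule.span K {QuadraticMap.polar Q s r • p + QuadraticMap.polar Q p r • s + QuadraticMap.polar Q p s • r}) ≤ 1 := by
    have := finrank_span_le_card (R := K) ({QuadraticMap.polar Q s r • p + QuadraticMap.polar Q p r • s + QuadraticMap.polar Q p s • r} : Set V)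
    simpa using this
  obtain ⟨e, f, he, hf, hef⟩ := exists_ef hnd M (by omega)
  have hD : 3 ≤ finrank K (LinearMap.BilinForm.orthogonal Q.polarBilin M) := by
    rw [finrank_orth hnd]; omega
  obtain ⟨d, hd, h1, h2⟩ := solve_avoid (Q := Q)
    (LinearMap.BilinForm.orthogonal Q.polarBilin M) hD (e := e) (f := f)
    (fun m hm => (p_comm Q m e).trans (he m hm)) (fun m hm => (p_comm Q m f).trans (hf m hm))
    hef w t z
  have hmem : ∀ i, QuadraticMap.polar Q (w + d) (![v1, v2, p, s, r] i) = ![0, 0, tp, ts, tr] i := fun i => by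
    rw [p_add_left, hw]
    have : QuadraticMap.polar Q d (![v1, v2, p, s, r] i) = 0 := by
      rw [p_comm]; exact hd _ (Submodule.subset_span ⟨i, rfl⟩)
    rw [this, add_zero]
  exact ⟨w + d, hmem 0, hmem 1, hmem 2, hmem 3, hmem 4, h1, h2⟩

include hnd in
/-- the system with an isotropic vector among the data -/
lemma solve5_iso {v1 v2 p s r : V} (h12 : QuadraticMap.polar Q v1 v2 = 1)
    (hp1 : QuadraticMap.polar Q p v1 = 0) (hp2 : QuadraticMap.polar Q p v2 = 0) (hs1 : QuadraticMap.polar Q s v1 = 0) (hs2 : QuadraticMap.polar Q s v2 = 0)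
    (hr1 : QuadraticMap.polar Q r v1 = 0) (hr2 : QuadraticMap.polar Q r v2 = 0) (hps : QuadraticMap.polar Q p s = 0) (hpr : QuadraticMap.polar Q p r = 0) (hsr : QuadraticMap.polar Q s r = 0)
    (tp ts tr : K) (hcons : ∀ x y z : K, x • p + y • s + z • r = 0 →
      x * tp + y * ts + z * tr = 0) (hQs : Q s = 0) (hts : ts ≠ 0) (t : K) :
    ∃ u, QuadraticMap.polar Q u v1 = 0 ∧ QuadraticMap.polar Q u v2 = 0 ∧ QuadraticMap.polar Q u p = tp ∧ QuadraticMap.polar Q u s = ts ∧ QuadraticMap.polar Q u r = tr ∧ Q u = t := by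
  have h21 : QuadraticMap.polar Q v2 v1 = 1 := by rw [p_comm, h12]
  have h1p : QuadraticMap.polar Q v1 p = 0 := by rw [p_comm, hp1]
  have h2p : QuadraticMap.polar Q v2 p = 0 := by rw [p_comm, hp2]
  have h1s : QuadraticMap.polar Q v1 s = 0 := by rw [p_comm, hs1]
  have h2s : QuadraticMap.polar Q v2 s = 0 := by rw [p_comm, hs2]
  have h1r : QuadraticMap.polar Q v1 r = 0 := by rw [p_comm, hr1]
  have h2r : QuadraticMap.polar Q v2 r = 0 := by rw [p_comm, hr2]
  obtain ⟨u, hu, hQu⟩ := solve_vary hnd ![v1, v2, p, s, r] ![0, 0, tp, ts, tr] (by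
    intro c hc
    rw [Fin.sum_univ_five] at hc ⊢
    change c 0 • v1 + c 1 • v2 + c 2 • p + c 3 • s + c 4 • r = 0 at hc
    change c 0 * 0 + c 1 * 0 + c 2 * tp + c 3 * ts + c 4 * tr = 0
    have e1 : c 1 = 0 := by
      have h0 := p_zero_left Q v1
      rw [← hc] at h0
      simp only [p_add_left, p_smul_left, p_self, h21, hp1, hs1, hr1] at h0
      linear_combination h0
    have e0 : c 0 = 0 := by
      have h0 := p_zero_left Q v2
      rw [← hc] at h0
      simp only [p_add_left, p_smul_left, p_self, h12, hp2, hs2, hr2] at h0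
      linear_combination h0
    rw [e0, e1, zero_smul, zero_smul, zero_add, zero_add] at hc
    linear_combination hcons _ _ _ hc) 3 hQs (by
      intro i
      fin_cases i
      · exact hs1
      · exact hs2
      · exact (p_comm Q s p).trans hps
      · exact p_self Q s
      · exact hsr) hts t
  exact ⟨u, hu 0, hu 1, hu 2, hu 3, hu 4, hQu⟩

include hnd in
/-- the system for two vectors spanning a totally singular plane -/
lemma solve4 (hdim : 8 ≤ finrank K V) {v1 v2 p r : V} (h12 : QuadraticMap.polar Q v1 v2 = 1)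
    (hp1 : QuadraticMap.polar Q p v1 = 0) (hp2 : QuadraticMap.polar Q p v2 = 0) (hr1 : QuadraticMap.polar Q r v1 = 0) (hr2 : QuadraticMap.polar Q r v2 = 0)
    (tp tr : K) (hcons : ∀ x z : K, x • p + z • r = 0 → x * tp + z * tr = 0) (t : K) :
    ∃ u, QuadraticMap.polar Q u v1 = 0 ∧ QuadraticMap.polar Q u v2 = 0 ∧ QuadraticMap.polar Q u p = tp ∧ QuadraticMap.polar Q u r = tr ∧ Q u = t := by
  have h21 : QuadraticMap.polar Q v2 v1 = 1 := by rw [p_comm, h12]
  have h1p : QuadraticMap.polar Q v1 p = 0 := by rw [p_comm, hp1]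
  have h2p : QuadraticMap.polar Q v2 p = 0 := by rw [p_comm, hp2]
  have h1r : QuadraticMap.polar Q v1 r = 0 := by rw [p_comm, hr1]
  have h2r : QuadraticMap.polar Q v2 r = 0 := by rw [p_comm, hr2]
  have hcomb : ∀ c : Fin 4 → K, ∀ x : V, x = ∑ i, c i • (![v1, v2, p, r] i) →
      QuadraticMap.polar Q x v1 = c 1 ∧ QuadraticMap.polar Q x v2 = c 0 := by
    intro c x hx
    have hx' : x = c 0 • v1 + c 1 • v2 + c 2 • p + c 3 • r := by
      rw [hx, Fin.sum_univ_four]; rfl
    rw [hx']
    simp only [p_add_left, p_smul_left, p_self, h12, h21, hp1, hp2, hr1, hr2]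
    refine ⟨by ring, by ring⟩
  obtain ⟨w, hw⟩ := solve_lin hnd ![v1, v2, p, r] ![0, 0, tp, tr] (by
    intro c hc
    obtain ⟨e1, e2⟩ := hcomb c 0 hc.symm
    simp only [p_zero_left] at e1 e2
    rw [Fin.sum_univ_four]
    rw [Fin.sum_univ_four] at hc
    change c 0 * 0 + c 1 * 0 + c 2 * tp + c 3 * tr = 0
    change c 0 • v1 + c 1 • v2 + c 2 • p + c 3 • r = 0 at hc
    rw [← e1, ← e2, zero_smul, zero_smul, zero_add, zero_add] at hc
    linear_combination hcons _ _ hc)
  set M : Submodule K V := Submodule.span K (Set.range ![v1, v2, p, r]) with hM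
  have hMf : finrank K M ≤ 4 := by
    have := finrank_range_le_card (R := K) (b := ![v1, v2, p, r])
    simpa [Set.finrank] using this
  have hrad : (M ⊓ LinearMap.BilinForm.orthogonal Q.polarBilin M : Submodule K V) ≤
      Submodule.span K (Set.range ![p, r]) := by
    rintro x ⟨hx1, hx2⟩
    have hx1' : x ∈ M := hx1
    rw [hM, Submodule.mem_span_range_iff_exists_fun] at hx1'
    obtain ⟨c, hc⟩ := hx1'
    obtain ⟨e1, e2⟩ := hcomb c x hc.symm
    have hmem : ∀ i, ![v1, v2, p, r] i ∈ M := fun i => Submodule.subset_span ⟨i, rfl⟩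
    have horth : ∀ i, QuadraticMap.polar Q x (![v1, v2, p, r] i) = 0 := fun i => by
      rw [p_comm]; exact hx2 _ (hmem i)
    have f1 : c 1 = 0 := e1.symm.trans (horth 0)
    have f2 : c 0 = 0 := e2.symm.trans (horth 1)
    rw [Submodule.mem_span_range_iff_exists_fun]
    refine ⟨![c 2, c 3], ?_⟩
    rw [← hc, Fin.sum_univ_four, Fin.sum_univ_two]
    change c 2 • p + c 3 • r = c 0 • v1 + c 1 • v2 + c 2 • p + c 3 • r
    rw [f1, f2]
    module
  have hradf := Submodule.finrank_mono hrad
  have h1f : finrank K (Submodule.span K (Set.range ![p, r])) ≤ 2 := by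
    have := finrank_range_le_card (R := K) (b := ![p, r])
    simpa [Set.finrank] using this
  obtain ⟨e, f, he, hf, hef⟩ := exists_ef hnd M (by omega)
  obtain ⟨α, β, h1⟩ := plane_solve (Q := Q) hef w t
  have hmem : ∀ i, QuadraticMap.polar Q (w + (α • e + β • f)) (![v1, v2, p, r] i) = ![0, 0, tp, tr] i := fun i => by
    have h3 := he _ (Submodule.subset_span ⟨i, rfl⟩)
    have h4 := hf _ (Submodule.subset_span ⟨i, rfl⟩)
    rw [p_add_left, hw, p_add_left, p_smul_left, p_smul_left, h3, h4, mul_zero, mul_zero,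
      add_zero, add_zero]
  exact ⟨_, hmem 0, hmem 1, hmem 2, hmem 3, h1⟩

end Pool.Agent.Helper84.YG
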