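import Mathlib
import Pool.Agent.Helper35.YG.CoverDefs

/-!
Linear algebra of quadratic forms in characteristic two: linear systems, solving quadratic
equations on subspaces.
-/

set_option autoImplicit false
set_option linter.unusedSectionVars false
set_option linter.style.longLine false
set_option linter.unusedSimpArgs false

namespace Pool.Agent.Helper84.YG

open Module

section char2

variable {K : Type*} [Field K] [CharP K 2]

lemma two0 : (2 : K) = 0 := CharTwo.two_eq_zero

lemma three1 : (3 : K) = 1 := by
  have : (3 : K) = 2 + 1 := by norm_num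
  rw [this, two0, zero_add]

lemma four0 : (4 : K) = 0 := by
  have : (4 : K) = 2 * 2 := by norm_num
  rw [this, two0, zero_mul]

lemma five1 : (5 : K) = 1 := by
  have : (5 : K) = 4 + 1 := by norm_num
  rw [this, four0, zero_add]

lemma six0 : (6 : K) = 0 := by
  have : (6 : K) = 2 * 3 := by norm_num
  rw [this, two0, zero_mul]

lemma neg2 (a : K) : -a = a := CharTwo.neg_eq a

end char2

section basic

variable {K V : Type*} [Field K] [AddCommGroup V] [Module K V] (Q : QuadraticForm K V)

lemma q_add (x y : V) : Q (x + y) = Q x + Q y + QuadraticMap.polar Q x y := by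
  unfold QuadraticMap.polar; ring

lemma q_smul (c : K) (x : V) : Q (c • x) = c * c * Q x := by
  rw [QuadraticMap.map_smul, smul_eq_mul]

lemma p_add_left (x y z : V) : QuadraticMap.polar Q (x + y) z =
    QuadraticMap.polar Q x z + QuadraticMap.polar Q y z := QuadraticMap.polar_add_left Q x y z

lemma p_add_right (x y z : V) : QuadraticMap.polar Q x (y + z) =
    QuadraticMap.polar Q x y + QuadraticMap.polar Q x z := QuadraticMap.polar_add_right Q x y z

lemma p_smul_left (c : K) (x y : V) : QuadraticMap.polar Q (c • x) y =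
    c * QuadraticMap.polar Q x y := by rw [QuadraticMap.polar_smul_left, smul_eq_mul]

lemma p_smul_right (c : K) (x y : V) : QuadraticMap.polar Q x (c • y) =
    c * QuadraticMap.polar Q x y := by rw [QuadraticMap.polar_smul_right, smul_eq_mul]

lemma p_zero_left (y : V) : QuadraticMap.polar Q 0 y = 0 := QuadraticMap.polar_zero_left Q y

lemma p_zero_right (y : V) : QuadraticMap.polar Q y 0 = 0 := QuadraticMap.polar_zero_right Q y

lemma p_comm (x y : V) : QuadraticMap.polar Q x y = QuadraticMap.polar Q y x :=
  QuadraticMap.polar_comm Q x y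

lemma p_self [CharP K 2] (x : V) : QuadraticMap.polar Q x x = 0 := by
  rw [QuadraticMap.polar_self, two_smul, CharTwo.add_self_eq_zero]

lemma p_sum_right {ι : Type*} (s : Finset ι) (x : V) (y : ι → V) :
    QuadraticMap.polar Q x (∑ i ∈ s, y i) = ∑ i ∈ s, QuadraticMap.polar Q x (y i) := by
  classical
  induction s using Finset.induction_on with
  | empty => simp
  | insert a s ha ih => rw [Finset.sum_insert ha, Finset.sum_insert ha, p_add_right, ih]

end basic

section solve

variable {K V : Type*} [Field K] [AddCommGroup V] [Module K V] {Q : QuadraticForm K V}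

lemma exists_sq [Finite K] [CharP K 2] (a : K) : ∃ b : K, b * b = a := by
  obtain ⟨b, hb⟩ := FiniteField.isSquare_of_char_two (ringChar.eq K 2) a
  exact ⟨b, hb.symm⟩

/-- on a nondegenerate plane the quadratic form is onto -/
lemma plane_onto [Finite K] [CharP K 2] {e f : V} (hef : QuadraticMap.polar Q e f = 1) (t : K) :
    ∃ α β : K, Q (α • e + β • f) = t := by
  have hQ : ∀ α β : K, Q (α • e + β • f) = α * α * Q e + β * β * Q f + α * β := by
    intro α β
    rw [q_add, q_smul, q_smul, p_smul_left, p_smul_right, hef]; ring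
  by_cases he : Q e = 0
  · by_cases hf : Q f = 0
    · exact ⟨t, 1, by rw [hQ, he, hf]; ring⟩
    · obtain ⟨b, hb⟩ := exists_sq (t / Q f)
      exact ⟨0, b, by rw [hQ, hb]; field_simp; ring⟩
  · obtain ⟨b, hb⟩ := exists_sq (t / Q e)
    exact ⟨b, 0, by rw [hQ, hb]; field_simp; ring⟩

/-- translated nondegenerate planes -/
lemma plane_solve [Finite K] [CharP K 2] {e f : V} (hef : QuadraticMap.polar Q e f = 1) (w : V)
    (t : K) : ∃ α β : K, Q (w + (α • e + β • f)) = t := by
  obtain ⟨α, β, h⟩ := plane_onto (Q := Q) hef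
    (t + Q (w + (QuadraticMap.polar Q w f • e + QuadraticMap.polar Q w e • f)))
  refine ⟨QuadraticMap.polar Q w f + α, QuadraticMap.polar Q w e + β, ?_⟩
  have h1 : w + ((QuadraticMap.polar Q w f + α) • e + (QuadraticMap.polar Q w e + β) • f) =
      (w + (QuadraticMap.polar Q w f • e + QuadraticMap.polar Q w e • f)) +
        (α • e + β • f) := by module
  have h2 : QuadraticMap.polar Q (w + (QuadraticMap.polar Q w f • e +
      QuadraticMap.polar Q w e • f)) (α • e + β • f) = 0 := by
    simp only [p_add_left, p_add_right, p_smul_left, p_smul_right, p_self, hef,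
      p_comm Q f e]
    (ring_nf; try simp only [two0, three1, four0, five1, six0, mul_zero, zero_mul, mul_one, one_mul, add_zero, zero_add, neg2]; try ring_nf)
  rw [h1, q_add, h2, h, add_zero]
  (ring_nf; try simp only [two0, three1, four0, five1, six0, mul_zero, zero_mul, mul_one, one_mul, add_zero, zero_add, neg2]; try ring_nf)

variable [FiniteDimensional K V] (hnd : ∀ x, (∀ y, QuadraticMap.polar Q x y = 0) → x = 0)

include hnd

/-- linear systems -/
lemma solve_lin {ι : Type*} [Fintype ι] (m : ι → V) (t : ι → K)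
    (h : ∀ c : ι → K, ∑ i, c i • m i = 0 → ∑ i, c i * t i = 0) :
    ∃ x, ∀ i, QuadraticMap.polar Q x (m i) = t i := by
  classical
  let Φ : V →ₗ[K] (ι → K) := LinearMap.pi fun i => Q.polarBilin (m i)
  have hΦ : ∀ x i, Φ x i = QuadraticMap.polar Q x (m i) := fun x i => by
    rw [p_comm]; rfl
  by_contra hcon
  have ht : t ∉ LinearMap.range Φ := by
    rintro ⟨x, hx⟩
    exact hcon ⟨x, fun i => by rw [← hΦ, hx]⟩
  obtain ⟨f, hf, hle⟩ := Submodule.exists_le_ker_of_notMem ht
  have hfc : ∀ s : ι → K, f s = ∑ i, f (Pi.single i 1) * s i := by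
    intro s
    conv_lhs => rw [← Finset.univ_sum_single s]
    rw [map_sum]
    refine Finset.sum_congr rfl fun i _ => ?_
    have : (Pi.single i (s i) : ι → K) = s i • Pi.single i 1 := by
      rw [← Pi.single_smul', smul_eq_mul, mul_one]
    rw [this, map_smul, smul_eq_mul, mul_comm]
  apply hf
  rw [hfc]
  apply h
  apply hnd
  intro x
  rw [p_comm, p_sum_right]
  have h1 : f (Φ x) = 0 := hle ⟨x, rfl⟩
  rw [hfc] at h1
  rw [← h1]
  refine Finset.sum_congr rfl fun i _ => ?_
  rw [p_smul_right, hΦ]

/-- a linear system together with a quadratic equation, when one of the vectors is isotropic and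
orthogonal to the others -/
lemma solve_vary {ι : Type*} [Fintype ι] (m : ι → V) (t : ι → K)
    (h : ∀ c : ι → K, ∑ i, c i • m i = 0 → ∑ i, c i * t i = 0) (j : ι) (hQ : Q (m j) = 0)
    (ho : ∀ i, QuadraticMap.polar Q (m j) (m i) = 0) (hj : t j ≠ 0) (q : K) :
    ∃ x, (∀ i, QuadraticMap.polar Q x (m i) = t i) ∧ Q x = q := by
  obtain ⟨u, hu⟩ := solve_lin hnd m t h
  refine ⟨u + ((q - Q u) / t j) • m j, fun i => ?_, ?_⟩
  · rw [p_add_left, p_smul_left, ho, hu]; ring
  · rw [q_add, q_smul, p_smul_right, hu, hQ]; field_simp; ring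

/-- the orthogonal complement is not totally isotropic -/
lemma exists_ef (M : Submodule K V)
    (h : finrank K (M ⊓ LinearMap.BilinForm.orthogonal Q.polarBilin M : Submodule K V) +
      finrank K M < finrank K V) :
    ∃ e f, (∀ m ∈ M, QuadraticMap.polar Q e m = 0) ∧ (∀ m ∈ M, QuadraticMap.polar Q f m = 0) ∧
      QuadraticMap.polar Q e f = 1 := by
  set B : LinearMap.BilinForm K V := Q.polarBilin with hB
  have hBa : ∀ x y, B x y = QuadraticMap.polar Q x y := fun x y => rfl
  have hrefl : B.IsRefl := fun x y hxy => by rw [hBa, p_comm, ← hBa]; exact hxy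
  have hndB : B.Nondegenerate :=
    ⟨fun x hx => hnd x hx, fun x hx => hnd x fun y => by rw [p_comm]; exact hx y⟩
  have h1 := LinearMap.BilinForm.finrank_orthogonal hndB M
  have h2 : ¬ B.orthogonal M ≤ M := by
    intro hle
    rw [inf_eq_right.mpr hle] at h
    omega
  obtain ⟨e, he, heM⟩ := Set.not_subset.mp h2
  have h3 : e ∉ B.orthogonal (B.orthogonal M) := by
    rw [LinearMap.BilinForm.orthogonal_orthogonal hndB hrefl]
    exact heM
  rw [LinearMap.BilinForm.mem_orthogonal_iff] at h3
  push Not at h3
  obtain ⟨f, hf, hfe⟩ := h3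
  have hfe' : QuadraticMap.polar Q e f ≠ 0 := by
    rw [p_comm]; exact hfe
  refine ⟨e, (QuadraticMap.polar Q e f)⁻¹ • f, fun m hm => ?_, fun m hm => ?_, ?_⟩
  · rw [p_comm]; exact he m hm
  · have : QuadraticMap.polar Q f m = 0 := by rw [p_comm]; exact hf m hm
    rw [p_smul_left, this, mul_zero]
  · rw [p_smul_right, inv_mul_cancel₀ hfe']

lemma finrank_orth (M : Submodule K V) :
    finrank K (LinearMap.BilinForm.orthogonal Q.polarBilin M) = finrank K V - finrank K M := by
  set B : LinearMap.BilinForm K V := Q.polarBilin with hB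
  have hBa : ∀ x y, B x y = QuadraticMap.polar Q x y := fun x y => rfl
  have hrefl : B.IsRefl := fun x y hxy => by rw [hBa, p_comm, ← hBa]; exact hxy
  have hndB : B.Nondegenerate :=
    ⟨fun x hx => hnd x hx, fun x hx => hnd x fun y => by rw [p_comm]; exact hx y⟩
  exact LinearMap.BilinForm.finrank_orthogonal hndB M

omit hnd in
/-- solving a quadratic equation on a translate of a subspace, avoiding a given vector -/
lemma solve_avoid [Finite K] [CharP K 2] (D : Submodule K V) (hD : 3 ≤ finrank K D) {e f : V}
    (he : e ∈ D) (hf : f ∈ D) (hef : QuadraticMap.polar Q e f = 1) (w : V) (t : K) (z : V) :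
    ∃ d ∈ D, Q (w + d) = t ∧ w + d ≠ z := by
  -- a third vector
  obtain ⟨g, hg, hg0, hge, hgf⟩ : ∃ g ∈ D, g ≠ 0 ∧ QuadraticMap.polar Q g e = 0 ∧
      QuadraticMap.polar Q g f = 0 := by
    let Φ : D →ₗ[K] (Fin 2 → K) := LinearMap.pi fun i =>
      (Q.polarBilin (![e, f] i)).comp D.subtype
    have hlt : finrank K (Fin 2 → K) < finrank K D := by
      rw [Module.finrank_fin_fun]; omega
    have hker := LinearMap.ker_ne_bot_of_finrank_lt (f := Φ) hlt
    obtain ⟨g, hg, hg0⟩ := Submodule.exists_mem_ne_zero_of_ne_bot hker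
    rw [LinearMap.mem_ker] at hg
    refine ⟨g, g.2, fun h => hg0 (Subtype.ext h), ?_, ?_⟩
    · rw [p_comm]; exact congrFun hg 0
    · rw [p_comm]; exact congrFun hg 1
  obtain ⟨α, β, h1⟩ := plane_solve (Q := Q) hef w t
  obtain ⟨γ, δ, h2⟩ := plane_solve (Q := Q) hef (w + g) t
  by_cases hz : w + (α • e + β • f) = z
  · refine ⟨g + (γ • e + δ • f), D.add_mem hg (D.add_mem (D.smul_mem _ he) (D.smul_mem _ hf)),
      by rw [← add_assoc]; exact h2, ?_⟩
    rw [← hz]
    intro h3
    apply hg0
    have h4 : g = (α - γ) • e + (β - δ) • f := by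
      have h5 : g + (γ • e + δ • f) = α • e + β • f := by
        have := add_left_cancel h3
        exact this
      rw [← sub_eq_zero] at h5 ⊢
      rw [← h5]; module
    have h5 : QuadraticMap.polar Q g f = α - γ := by
      rw [h4, p_add_left, p_smul_left, p_smul_left, hef, p_self]; ring
    have h6 : QuadraticMap.polar Q g e = β - δ := by
      rw [h4, p_add_left, p_smul_left, p_smul_left, p_comm Q f e, hef, p_self]; ring
    rw [hgf] at h5
    rw [hge] at h6
    rw [h4, ← h5, ← h6, zero_smul, zero_smul, add_zero]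
  · exact ⟨α • e + β • f, D.add_mem (D.smul_mem _ he) (D.smul_mem _ hf), h1, hz⟩

omit hnd in
/-- subspaces of dimension at least three contain isotropic vectors -/
lemma exists_iso [Finite K] [CharP K 2] (S : Submodule K V) (hS : 3 ≤ finrank K S) :
    ∃ u ∈ S, u ≠ 0 ∧ Q u = 0 := by
  obtain ⟨x, hx0⟩ : ∃ x : S, x ≠ 0 := by
    have : Nontrivial S := Module.finrank_pos_iff (R := K).mp (by omega)
    exact exists_ne 0
  by_cases hQx : Q (x : V) = 0
  · exact ⟨x, x.2, fun h => hx0 (Subtype.ext h), hQx⟩
  · -- a vector orthogonal to `x`, not a multiple of `x`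
    let φ : S →ₗ[K] K := (Q.polarBilin (x : V)).comp S.subtype
    have h1 := LinearMap.finrank_range_add_finrank_ker φ
    have h2 : finrank K (LinearMap.range φ) ≤ 1 := by
      have := Submodule.finrank_le (LinearMap.range φ)
      rwa [Module.finrank_self] at this
    have h3 : ¬ LinearMap.ker φ ≤ Submodule.span K {x} := by
      intro hle
      have := Submodule.finrank_mono hle
      have h4 := finrank_span_le_card (R := K) ({x} : Set S)
      simp only [Set.toFinset_singleton, Finset.card_singleton] at h4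
      omega
    obtain ⟨y, hy, hyx⟩ := Set.not_subset.mp h3
    have hxy : QuadraticMap.polar Q (x : V) (y : V) = 0 := LinearMap.mem_ker.mp hy
    obtain ⟨b, hb⟩ := exists_sq (K := K) (Q (y : V) / Q (x : V))
    refine ⟨b • (x : V) + y, S.add_mem (S.smul_mem _ x.2) y.2, ?_, ?_⟩
    · intro h4
      apply hyx
      have h5 : y = (-b) • x := by
        apply Subtype.ext
        rw [Submodule.coe_smul, neg_smul]
        exact (neg_eq_of_add_eq_zero_right h4).symm
      rw [h5]
      exact Submodule.smul_mem _ _ (Submodule.mem_span_singleton_self x)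
    · rw [q_add, q_smul, p_smul_left, hxy, hb]
      field_simp
      have : Q (y : V) + Q (y : V) = 0 := CharTwo.add_self_eq_zero _
      linear_combination this

omit hnd in
/-- subspaces of dimension at least four contain isotropic vectors off a given line -/
lemma exists_iso' [Finite K] [CharP K 2] (S : Submodule K V) (hS : 4 ≤ finrank K S) (x : V) :
    ∃ u ∈ S, u ∉ Submodule.span K {x} ∧ Q u = 0 := by
  obtain ⟨C, hC⟩ := Submodule.exists_isCompl (Submodule.span K {x})
  have h1 := Submodule.finrank_add_eq_of_isCompl hC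
  have h2 := Submodule.finrank_sup_add_finrank_inf_eq S C
  have h3 := Submodule.finrank_le (S ⊔ C)
  have h4 : finrank K (Submodule.span K {x}) ≤ 1 := by
    have := finrank_span_le_card (R := K) ({x} : Set V)
    simpa using this
  obtain ⟨u, hu, hu0, hQ⟩ := exists_iso (Q := Q) (S ⊓ C) (by omega)
  refine ⟨u, hu.1, fun h => hu0 ?_, hQ⟩
  exact Submodule.disjoint_def.mp hC.disjoint u h hu.2

end solve

section field

variable {K V : Type*} [Field K] [Fintype K] [AddCommGroup V] [Module K V]

/-- avoiding two scalars -/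
lemma exists_scalar (hq : 4 ≤ Fintype.card K) (x y z : K) : ∃ δ : K, δ ≠ x ∧ δ ≠ y ∧ δ ≠ z := by
  classical
  have h1 : ({x, y, z} : Finset K).card < (Finset.univ : Finset K).card := by
    rw [Finset.card_univ]
    exact lt_of_le_of_lt Finset.card_le_three hq
  obtain ⟨δ, -, hδ⟩ := Finset.exists_mem_notMem_of_card_lt_card h1
  simp only [Finset.mem_insert, Finset.mem_singleton, not_or] at hδ
  exact ⟨δ, hδ.1, hδ.2.1, hδ.2.2⟩

/-- avoiding vectors by scaling -/
lemma exists_scale (hq : 4 ≤ Fintype.card K) {u : V} (hu : u ≠ 0) (y z : V) :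
    ∃ δ : K, δ • u ≠ 0 ∧ δ • u ≠ y ∧ δ • u ≠ z := by
  classical
  have hinj : Function.Injective fun δ : K => δ • u := fun a b hab => by
    have : (a - b) • u = 0 := by rw [sub_smul, sub_eq_zero]; exact hab
    exact sub_eq_zero.mp ((smul_eq_zero.mp this).resolve_right hu)
  have h1 : ({0, y, z} : Finset V).card <
      ((Finset.univ : Finset K).image fun δ : K => δ • u).card := by
    rw [Finset.card_image_of_injective _ hinj, Finset.card_univ]
    exact lt_of_le_of_lt Finset.card_le_three hq
  obtain ⟨w, hw, hδ⟩ := Finset.exists_mem_notMem_of_card_lt_card h1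
  obtain ⟨δ, -, rfl⟩ := Finset.mem_image.mp hw
  simp only [Finset.mem_insert, Finset.mem_singleton, not_or] at hδ
  exact ⟨δ, hδ.1, hδ.2.1, hδ.2.2⟩

end field

end Pool.Agent.Helper84.YG
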