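import Pool.Agent.Helper84.YG.Solve5

/-!
Three-walks in the graph of the vectors `v` with `B(v,ρ) = 1`, `Q v = 1`: direct contractions
and moves.
-/

set_option autoImplicit false
set_option linter.unusedSectionVars false
set_option linter.style.longLine false
set_option linter.unusedSimpArgs false

namespace Pool.Agent.Helper84.YG

open Module Pool.Agent.Helper35.YG

/-- the vertices -/
def XX {K V : Type*} [Field K] [AddCommGroup V] [Module K V] (Q : QuadraticForm K V) (ρ : V) :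
    Set V := {v : V | QuadraticMap.polar Q v ρ = 1 ∧ Q v = 1}

/-- adjacency -/
def AA {K V : Type*} [Field K] [AddCommGroup V] [Module K V] (Q : QuadraticForm K V) (ρ : V)
    (v w : V) : Prop := QuadraticMap.polar Q v w = 1 ∧ v + w ≠ ρ

/-- a walk with three steps -/
structure Wk {K V : Type*} [Field K] [AddCommGroup V] [Module K V] (Q : QuadraticForm K V)
    (ρ v0 v1 v2 v3 : V) : Prop where
  m0 : v0 ∈ XX Q ρ
  m1 : v1 ∈ XX Q ρ
  m2 : v2 ∈ XX Q ρ
  m3 : v3 ∈ XX Q ρ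
  a01 : AA Q ρ v0 v1
  a12 : AA Q ρ v1 v2
  a23 : AA Q ρ v2 v3

variable {K V : Type*} [Field K] [AddCommGroup V] [Module K V] {Q : QuadraticForm K V} {ρ : V}

lemma vself (K : Type*) {V : Type*} [Field K] [CharP K 2] [AddCommGroup V] [Module K V] (x : V) :
    x + x = 0 := by
  have : x + x = (2 : K) • x := by module
  rw [this, two0, zero_smul]

lemma AA.symm {v w : V} (h : AA Q ρ v w) : AA Q ρ w v :=
  ⟨(p_comm Q w v).trans h.1, by rw [add_comm]; exact h.2⟩

lemma Wk.symm {v0 v1 v2 v3 : V} (W : Wk Q ρ v0 v1 v2 v3) : Wk Q ρ v3 v2 v1 v0 :=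
  ⟨W.m3, W.m2, W.m1, W.m0, W.a23.symm, W.a12.symm, W.a01.symm⟩

section data

variable [CharP K 2] {v0 v1 v2 v3 : V} (W : Wk Q ρ v0 v1 v2 v3)

include W

lemma Wk.p1 : QuadraticMap.polar Q (v0 + QuadraticMap.polar Q v0 v2 • v1 + v2) v1 = 0 := by
  simp only [p_add_left, p_smul_left, p_self, W.a01.1, p_comm Q v2 v1, W.a12.1]
  (ring_nf; try simp only [two0, three1, four0, five1, six0, mul_zero, zero_mul, mul_one, one_mul, add_zero, zero_add, neg2]; try ring_nf)

lemma Wk.p2 : QuadraticMap.polar Q (v0 + QuadraticMap.polar Q v0 v2 • v1 + v2) v2 = 0 := by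
  simp only [p_add_left, p_smul_left, p_self, W.a12.1]
  (ring_nf; try simp only [two0, three1, four0, five1, six0, mul_zero, zero_mul, mul_one, one_mul, add_zero, zero_add, neg2]; try ring_nf)

lemma Wk.s1 : QuadraticMap.polar Q (v3 + v1 + QuadraticMap.polar Q v1 v3 • v2) v1 = 0 := by
  simp only [p_add_left, p_smul_left, p_self, p_comm Q v3 v1, p_comm Q v2 v1, W.a12.1]
  (ring_nf; try simp only [two0, three1, four0, five1, six0, mul_zero, zero_mul, mul_one, one_mul, add_zero, zero_add, neg2]; try ring_nf)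

lemma Wk.s2 : QuadraticMap.polar Q (v3 + v1 + QuadraticMap.polar Q v1 v3 • v2) v2 = 0 := by
  simp only [p_add_left, p_smul_left, p_self, p_comm Q v3 v2, W.a12.1, W.a23.1]
  (ring_nf; try simp only [two0, three1, four0, five1, six0, mul_zero, zero_mul, mul_one, one_mul, add_zero, zero_add, neg2]; try ring_nf)

lemma Wk.r1 : QuadraticMap.polar Q (ρ + v1 + v2) v1 = 0 := by
  simp only [p_add_left, p_self, p_comm Q ρ v1, W.m1.1, p_comm Q v2 v1, W.a12.1]
  (ring_nf; try simp only [two0, three1, four0, five1, six0, mul_zero, zero_mul, mul_one, one_mul, add_zero, zero_add, neg2]; try ring_nf)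

lemma Wk.r2 : QuadraticMap.polar Q (ρ + v1 + v2) v2 = 0 := by
  simp only [p_add_left, p_self, p_comm Q ρ v2, W.m2.1, W.a12.1]
  (ring_nf; try simp only [two0, three1, four0, five1, six0, mul_zero, zero_mul, mul_one, one_mul, add_zero, zero_add, neg2]; try ring_nf)

lemma Wk.ps : QuadraticMap.polar Q (v0 + QuadraticMap.polar Q v0 v2 • v1 + v2) (v3 + v1 + QuadraticMap.polar Q v1 v3 • v2) =
    1 + QuadraticMap.polar Q v0 v2 * QuadraticMap.polar Q v1 v3 + QuadraticMap.polar Q v0 v3 := by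
  simp only [p_add_left, p_add_right, p_smul_left, p_smul_right, p_self, W.a01.1, W.a12.1,
    W.a23.1, p_comm Q v2 v1]
  (ring_nf; try simp only [two0, three1, four0, five1, six0, mul_zero, zero_mul, mul_one, one_mul, add_zero, zero_add, neg2]; try ring_nf)

lemma Wk.pr : QuadraticMap.polar Q (v0 + QuadraticMap.polar Q v0 v2 • v1 + v2) (ρ + v1 + v2) = QuadraticMap.polar Q v0 v2 := by
  simp only [p_add_left, p_add_right, p_smul_left, p_self, W.a01.1, W.a12.1,
    p_comm Q v2 v1, W.m0.1, W.m1.1, W.m2.1]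
  (ring_nf; try simp only [two0, three1, four0, five1, six0, mul_zero, zero_mul, mul_one, one_mul, add_zero, zero_add, neg2]; try ring_nf)

lemma Wk.sr : QuadraticMap.polar Q (v3 + v1 + QuadraticMap.polar Q v1 v3 • v2) (ρ + v1 + v2) = QuadraticMap.polar Q v1 v3 := by
  simp only [p_add_left, p_add_right, p_smul_left, p_self, W.a23.1, W.a12.1,
    p_comm Q v2 v1, p_comm Q v3 v2, p_comm Q v3 v1, W.m1.1, W.m2.1, W.m3.1]
  (ring_nf; try simp only [two0, three1, four0, five1, six0, mul_zero, zero_mul, mul_one, one_mul, add_zero, zero_add, neg2]; try ring_nf)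

lemma Wk.qp : Q (v0 + QuadraticMap.polar Q v0 v2 • v1 + v2) = QuadraticMap.polar Q v0 v2 * QuadraticMap.polar Q v0 v2 + QuadraticMap.polar Q v0 v2 := by
  simp only [q_add, q_smul, p_add_left, p_smul_left, p_smul_right, W.a01.1, W.a12.1,
    W.m0.2, W.m1.2, W.m2.2]
  (ring_nf; try simp only [two0, three1, four0, five1, six0, mul_zero, zero_mul, mul_one, one_mul, add_zero, zero_add, neg2]; try ring_nf)

lemma Wk.qs : Q (v3 + v1 + QuadraticMap.polar Q v1 v3 • v2) = QuadraticMap.polar Q v1 v3 * QuadraticMap.polar Q v1 v3 + QuadraticMap.polar Q v1 v3 := by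
  simp only [q_add, q_smul, p_add_left, p_smul_right, W.a12.1, p_comm Q v3 v2, W.a23.1,
    p_comm Q v3 v1, W.m1.2, W.m2.2, W.m3.2]
  (ring_nf; try simp only [two0, three1, four0, five1, six0, mul_zero, zero_mul, mul_one, one_mul, add_zero, zero_add, neg2]; try ring_nf)

lemma Wk.qr : Q (ρ + v1 + v2) = Q ρ + 1 := by
  simp only [q_add, p_add_left, W.a12.1, p_comm Q ρ v1, p_comm Q ρ v2, W.m1.1, W.m2.1,
    W.m1.2, W.m2.2]
  (ring_nf; try simp only [two0, three1, four0, five1, six0, mul_zero, zero_mul, mul_one, one_mul, add_zero, zero_add, neg2]; try ring_nf)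

lemma Wk.r_ne : ρ + v1 + v2 ≠ 0 := fun h => W.a12.2 (by
  have h1 : v1 + v2 = (ρ + v1 + v2) + ρ := by
    linear_combination (norm := module) (-1 : K) • vself K ρ
  rw [h1, h, zero_add])

end data

section moves

variable [CharP K 2] {v0 v1 v2 v3 : V} (W : Wk Q ρ v0 v1 v2 v3)

include W

/-- common facts on the vector `v1 + v2 + u` -/
lemma Wk.new {u : V} (h1 : QuadraticMap.polar Q u v1 = 0) (h2 : QuadraticMap.polar Q u v2 = 0)
    (hp : QuadraticMap.polar Q u (v0 + QuadraticMap.polar Q v0 v2 • v1 + v2) = QuadraticMap.polar Q v0 v2) (hr : QuadraticMap.polar Q u (ρ + v1 + v2) = 1) (hQ : Q u = 0) :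
    v1 + v2 + u ∈ XX Q ρ ∧ AA Q ρ v0 (v1 + v2 + u) ∧ AA Q ρ v1 (v1 + v2 + u) ∧
      AA Q ρ (v1 + v2 + u) v2 := by
  have hp' : QuadraticMap.polar Q u v0 = QuadraticMap.polar Q v0 v2 := by
    simp only [p_add_right, p_smul_right, h1, h2] at hp
    linear_combination hp
  have hr' : QuadraticMap.polar Q u ρ = 1 := by
    simp only [p_add_right, h1, h2] at hr
    linear_combination hr
  have e0 : QuadraticMap.polar Q (v1 + v2 + u) v0 = 1 := by
    simp only [p_add_left, p_comm Q v1 v0, p_comm Q v2 v0, W.a01.1, hp']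
    (ring_nf; try simp only [two0, three1, four0, five1, six0, mul_zero, zero_mul, mul_one, one_mul, add_zero, zero_add, neg2]; try ring_nf)
  have e1 : QuadraticMap.polar Q (v1 + v2 + u) v1 = 1 := by
    simp only [p_add_left, p_self, p_comm Q v2 v1, W.a12.1, h1]
    (ring_nf; try simp only [two0, three1, four0, five1, six0, mul_zero, zero_mul, mul_one, one_mul, add_zero, zero_add, neg2]; try ring_nf)
  have e2 : QuadraticMap.polar Q (v1 + v2 + u) v2 = 1 := by
    simp only [p_add_left, p_self, W.a12.1, h2]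
    (ring_nf; try simp only [two0, three1, four0, five1, six0, mul_zero, zero_mul, mul_one, one_mul, add_zero, zero_add, neg2]; try ring_nf)
  have er : QuadraticMap.polar Q (v1 + v2 + u) ρ = 1 := by
    simp only [p_add_left, W.m1.1, W.m2.1, hr']
    (ring_nf; try simp only [two0, three1, four0, five1, six0, mul_zero, zero_mul, mul_one, one_mul, add_zero, zero_add, neg2]; try ring_nf)
  have eq : Q (v1 + v2 + u) = 1 := by
    simp only [q_add, p_add_left, W.m1.2, W.m2.2, W.a12.1, p_comm Q v1 u, p_comm Q v2 u, h1, h2,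
      hQ]
    (ring_nf; try simp only [two0, three1, four0, five1, six0, mul_zero, zero_mul, mul_one, one_mul, add_zero, zero_add, neg2]; try ring_nf)
  refine ⟨⟨er, eq⟩, ⟨(p_comm Q _ _).trans e0, fun h => ?_⟩, ⟨(p_comm Q _ _).trans e1, fun h => ?_⟩,
    ⟨e2, fun h => ?_⟩⟩
  · have h3 := W.m1.1
    rw [← h, p_add_right, p_comm Q v1 v0, p_comm Q v1 (v1 + v2 + u), W.a01.1, e1,
      CharTwo.add_self_eq_zero] at h3
    exact zero_ne_one h3
  · have h3 := W.m2.1
    rw [← h, p_add_right, p_comm Q v2 v1, p_comm Q v2 (v1 + v2 + u), W.a12.1, e2,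
      CharTwo.add_self_eq_zero] at h3
    exact zero_ne_one h3
  · have h3 := W.m1.1
    rw [← h, p_add_right, W.a12.1, p_comm Q v1 (v1 + v2 + u), e1,
      CharTwo.add_self_eq_zero] at h3
    exact zero_ne_one h3

/-- the move -/
lemma Wk.move {u : V} (h1 : QuadraticMap.polar Q u v1 = 0) (h2 : QuadraticMap.polar Q u v2 = 0)
    (hp : QuadraticMap.polar Q u (v0 + QuadraticMap.polar Q v0 v2 • v1 + v2) = QuadraticMap.polar Q v0 v2) {δ : K}
    (hs : QuadraticMap.polar Q u (v3 + v1 + QuadraticMap.polar Q v1 v3 • v2) = 1 + δ) (hr : QuadraticMap.polar Q u (ρ + v1 + v2) = 1) (hQ : Q u = 0) :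
    Wk Q ρ v0 (v1 + v2 + u) v2 v3 ∧ AA Q ρ v1 (v1 + v2 + u) ∧
      QuadraticMap.polar Q (v1 + v2 + u) v3 = QuadraticMap.polar Q v1 v3 + δ := by
  obtain ⟨m, a0, a1, a2⟩ := W.new h1 h2 hp hr hQ
  refine ⟨⟨W.m0, m, W.m2, W.m3, a0, a2, W.a23⟩, a1, ?_⟩
  have hs' : QuadraticMap.polar Q u v3 = 1 + δ := by
    simp only [p_add_right, p_smul_right, h1, h2] at hs
    linear_combination hs
  simp only [p_add_left, W.a23.1, hs']
  (ring_nf; try simp only [two0, three1, four0, five1, six0, mul_zero, zero_mul, mul_one, one_mul, add_zero, zero_add, neg2]; try ring_nf)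

/-- direct contraction -/
lemma Wk.direct {u : V} (h1 : QuadraticMap.polar Q u v1 = 0) (h2 : QuadraticMap.polar Q u v2 = 0)
    (hp : QuadraticMap.polar Q u (v0 + QuadraticMap.polar Q v0 v2 • v1 + v2) = QuadraticMap.polar Q v0 v2)
    (hs : QuadraticMap.polar Q u (v3 + v1 + QuadraticMap.polar Q v1 v3 • v2) = QuadraticMap.polar Q v1 v3) (hr : QuadraticMap.polar Q u (ρ + v1 + v2) = 1) (hQ : Q u = 0) :
    v1 + v2 + u ∈ XX Q ρ ∧ AA Q ρ v0 (v1 + v2 + u) ∧ AA Q ρ v1 (v1 + v2 + u) ∧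
      AA Q ρ v2 (v1 + v2 + u) ∧ AA Q ρ v3 (v1 + v2 + u) := by
  obtain ⟨m, a0, a1, a2⟩ := W.new h1 h2 hp hr hQ
  refine ⟨m, a0, a1, a2.symm, ?_, ?_⟩
  · have hs' : QuadraticMap.polar Q u v3 = QuadraticMap.polar Q v1 v3 := by
      simp only [p_add_right, p_smul_right, h1, h2] at hs
      linear_combination hs
    rw [p_comm]
    simp only [p_add_left, W.a23.1, hs']
    (ring_nf; try simp only [two0, three1, four0, five1, six0, mul_zero, zero_mul, mul_one, one_mul, add_zero, zero_add, neg2]; try ring_nf)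
  · intro h
    have h3 := W.m2.1
    rw [← h, p_add_right, W.a23.1, p_comm Q v2 (v1 + v2 + u), a2.1,
      CharTwo.add_self_eq_zero] at h3
    exact zero_ne_one h3

end moves

section omega

variable {Ω : Type*} {E : Ω → Ω → Prop} {π : Ω → V} (hc : Cover (XX Q ρ) (AA Q ρ) E π)

include hc

lemma walk {ω₀ ω₁ ω₂ ω₃ : Ω} (h01 : E ω₀ ω₁) (h12 : E ω₁ ω₂) (h23 : E ω₂ ω₃) :
    Wk Q ρ (π ω₀) (π ω₁) (π ω₂) (π ω₃) :=
  ⟨hc.mem _, hc.mem _, hc.mem _, hc.mem _, hc.adj _ _ h01, hc.adj _ _ h12, hc.adj _ _ h23⟩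

lemma near_symm {ω ω' : Ω} (h : Near E ω ω') : Near E ω' ω := by
  rcases h with rfl | h | ⟨x, h1, h2⟩
  · exact Or.inl rfl
  · exact Or.inr (Or.inl (hc.symm _ _ h))
  · exact Or.inr (Or.inr ⟨x, hc.symm _ _ h2, hc.symm _ _ h1⟩)

lemma near_direct {ω₀ ω₁ ω₂ ω₃ : Ω} (h01 : E ω₀ ω₁) (h12 : E ω₁ ω₂) (h23 : E ω₂ ω₃) {x : V}
    (hx : x ∈ XX Q ρ) (a0 : AA Q ρ (π ω₀) x) (a1 : AA Q ρ (π ω₁) x) (a2 : AA Q ρ (π ω₂) x)
    (a3 : AA Q ρ (π ω₃) x) : Near E ω₀ ω₃ := by
  obtain ⟨ωx, h1x, rfl⟩ := hc.lift ω₁ x hx a1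
  have h0x := hc.tri _ _ _ h01 h1x a0
  have h2x := hc.tri _ _ _ (hc.symm _ _ h12) h1x a2
  have h3x := hc.tri _ _ _ (hc.symm _ _ h23) h2x a3
  exact Or.inr (Or.inr ⟨ωx, h0x, hc.symm _ _ h3x⟩)

lemma exists_move {ω₀ ω₁ ω₂ : Ω} (h01 : E ω₀ ω₁) (h12 : E ω₁ ω₂) {x : V}
    (hx : x ∈ XX Q ρ) (a0 : AA Q ρ (π ω₀) x) (a1 : AA Q ρ (π ω₁) x) (a2 : AA Q ρ (π ω₂) x) :
    ∃ ωx, E ω₀ ωx ∧ E ωx ω₂ ∧ π ωx = x := by
  obtain ⟨ωx, h1x, rfl⟩ := hc.lift ω₁ x hx a1
  have h0x := hc.tri _ _ _ h01 h1x a0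
  have h2x := hc.tri _ _ _ (hc.symm _ _ h12) h1x a2
  exact ⟨ωx, h0x, hc.symm _ _ h2x, rfl⟩

end omega

end Pool.Agent.Helper84.YG
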